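import Mathlib
import Pool.Agent.Q48.MDS.Glue
import Pool.Agent.H38R2.CG.KR
import Pool.Agent.H38R2.CG.PV

/-!
# The L-functions of the positive fundamental discriminants to the right of the imaginary axis
-/

set_option autoImplicit false

namespace Pool.Agent.L5helper5.LE

open Complex Filter Topology MeasureTheory Set
open Pool.Agent.Q48.MDS (FundDisc kron kronTwo Lchi norm_kron_le abs_kron_le fund_pos tube differentiableOn_integral)

lemma isFund {d : ℕ} (hd : FundDisc d) (h1 : 1 < d) : Pool.Agent.H38R2.CG.IsFund d := ⟨h1, hd⟩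

lemma kron_eq_chi {d : ℕ} (hd : FundDisc d) (n : ℕ) : kron d n = Pool.Agent.H38R2.CG.chi d n := by
  have h2 : kronTwo d = Pool.Agent.H38R2.CG.chi2 d := by
    unfold kronTwo Pool.Agent.H38R2.CG.chi2
    have hmod : d % 4 = 0 ∨ d % 4 = 1 := by
      rcases hd with ⟨h, _⟩ | ⟨m, h, h2, _⟩ <;> omega
    have e1 : ((d : ℤ) % 8 = 1) ↔ d % 8 = 1 := by omega
    have e5 : ((d : ℤ) % 8 = 5) ↔ d % 8 = 5 := by omega
    simp only [e1, e5]
    split_ifs <;> first | rfl | omega
  unfold kron Pool.Agent.H38R2.CG.chi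
  rw [h2]

/-- the character of a fundamental discriminant -/
theorem exists_char {d : ℕ} (hd : FundDisc d) (h1 : 1 < d) :
    ∃ χ : DirichletCharacter ℂ d, χ ≠ 1 ∧ ∀ n : ℕ, 1 ≤ n → χ (n : ZMod d) = (kron d n : ℂ) := by
  obtain ⟨χ, h2, h3⟩ := Pool.Agent.H38R2.CG.T_KR d (isFund hd h1)
  exact ⟨χ, h2, fun n hn => by rw [h3 n hn, kron_eq_chi hd n]⟩

theorem char_unique {d : ℕ} (h1 : 1 < d) {χ χ' : DirichletCharacter ℂ d}
    (h : ∀ n : ℕ, 1 ≤ n → χ (n : ZMod d) = (kron d n : ℂ))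
    (h' : ∀ n : ℕ, 1 ≤ n → χ' (n : ZMod d) = (kron d n : ℂ)) : χ = χ' := by
  have : NeZero d := ⟨by omega⟩
  ext a
  have h2 := h ((a : ZMod d).val + d) (by omega)
  have h3 := h' ((a : ZMod d).val + d) (by omega)
  have h4 : ((((a : ZMod d).val + d : ℕ)) : ZMod d) = (a : ZMod d) := by
    push_cast
    rw [ZMod.natCast_self, add_zero, ZMod.natCast_zmod_val]
  rw [h4] at h2 h3
  rw [h2, h3]

/-- the character -/
noncomputable def chr {d : ℕ} (hd : FundDisc d) (h1 : 1 < d) : DirichletCharacter ℂ d :=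
  Classical.choose (exists_char hd h1)

lemma chr_ne {d : ℕ} (hd : FundDisc d) (h1 : 1 < d) : chr hd h1 ≠ 1 := (Classical.choose_spec (exists_char hd h1)).1

lemma chr_apply {d : ℕ} (hd : FundDisc d) (h1 : 1 < d) {n : ℕ} (hn : 1 ≤ n) :
    chr hd h1 (n : ZMod d) = (kron d n : ℂ) := (Classical.choose_spec (exists_char hd h1)).2 n hn

open Classical in
/-- the L-function -/
noncomputable def Lx (d : ℕ) (s : ℂ) : ℂ :=
  if h : FundDisc d ∧ 1 < d then
    haveI : NeZero d := ⟨by omega⟩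
    DirichletCharacter.LFunction (chr h.1 h.2) s else 0

lemma Lx_def {d : ℕ} (hd : FundDisc d) (h1 : 1 < d) [NeZero d] (s : ℂ) :
    Lx d s = DirichletCharacter.LFunction (chr hd h1) s := by
  unfold Lx
  rw [dif_pos ⟨hd, h1⟩]

lemma Lx_of_char {d : ℕ} (hd : FundDisc d) (h1 : 1 < d) [NeZero d] {χ : DirichletCharacter ℂ d}
    (hχ : ∀ n : ℕ, 1 ≤ n → χ (n : ZMod d) = (kron d n : ℂ)) (s : ℂ) :
    DirichletCharacter.LFunction χ s = Lx d s := by
  rw [Lx_def hd h1, char_unique h1 hχ fun n hn => chr_apply hd h1 hn]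

lemma Lx_diff (d : ℕ) : Differentiable ℂ (Lx d) := by
  by_cases h : FundDisc d ∧ 1 < d
  · have : NeZero d := ⟨by omega⟩
    have h2 : Lx d = DirichletCharacter.LFunction (chr h.1 h.2) := funext fun s => Lx_def h.1 h.2 s
    rw [h2]
    exact DirichletCharacter.differentiable_LFunction (chr_ne h.1 h.2)
  · have h2 : Lx d = fun _ => 0 := by
      funext s
      unfold Lx
      rw [dif_neg h]
    rw [h2]
    exact differentiable_const 0

lemma Lx_eq {d : ℕ} (hd : FundDisc d) (h1 : 1 < d) {s : ℂ} (hs : 1 < s.re) : Lx d s = Lchi d s := by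
  have : NeZero d := ⟨by omega⟩
  rw [Lx_def hd h1, DirichletCharacter.LFunction_eq_LSeries _ hs, Lchi]
  exact LSeries_congr (fun {n} hn => chr_apply hd h1 (Nat.one_le_iff_ne_zero.2 hn)) s

/-- the partial sums of the character -/
lemma sum_bound : ∃ C : ℝ, 0 < C ∧ ∀ d : ℕ, FundDisc d → 1 < d → ∀ N : ℕ,
    ‖∑ n ∈ Finset.Icc 1 N, ((kron d n : ℤ) : ℂ)‖ ≤ C * d := by
  obtain ⟨C, hC, h⟩ := Pool.Agent.H38R2.CG.T_PV
  refine ⟨2 * C, by positivity, fun d hd h1 N => ?_⟩
  have h2 := h d (chr hd h1) h1 (chr_ne hd h1) 0 N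
  have h3 : ∑ n ∈ Finset.Ioc 0 N, chr hd h1 (n : ZMod d) = ∑ n ∈ Finset.Icc 1 N, ((kron d n : ℤ) : ℂ) := by
    have h4 : Finset.Ioc 0 N = Finset.Icc 1 N := by
      ext x; simp [Finset.mem_Icc, Finset.mem_Ioc, Nat.succ_le_iff]
    rw [h4]
    exact Finset.sum_congr rfl fun n hn => chr_apply hd h1 (Finset.mem_Icc.1 hn).1
  rw [h3] at h2
  refine h2.trans ?_
  have hd0 : (0 : ℝ) < d := by exact_mod_cast (by omega : 0 < d)
  have h5 : Real.log d ≤ 2 * √(d : ℝ) := by
    have h6 := Real.log_le_sub_one_of_pos (Real.sqrt_pos.2 hd0)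
    have h7 : Real.log (√(d : ℝ)) = Real.log d / 2 := Real.log_sqrt hd0.le
    rw [h7] at h6
    linarith
  have h8 : √(d : ℝ) * √(d : ℝ) = d := Real.mul_self_sqrt hd0.le
  have h9 : 0 ≤ √(d : ℝ) := Real.sqrt_nonneg _
  calc C * √(d : ℝ) * Real.log d ≤ C * √(d : ℝ) * (2 * √(d : ℝ)) :=
        mul_le_mul_of_nonneg_left h5 (by positivity)
    _ = 2 * C * (√(d : ℝ) * √(d : ℝ)) := by ring
    _ = 2 * C * d := by rw [h8]

/-- the summatory function of the character -/
noncomputable def Sd (d : ℕ) (t : ℝ) : ℂ := ∑ n ∈ Finset.Icc 1 ⌊t⌋₊, ((kron d n : ℤ) : ℂ)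

lemma measurable_Sd (d : ℕ) : Measurable (Sd d) := by
  have h1 : Sd d = (fun N : ℕ => ∑ n ∈ Finset.Icc 1 N, ((kron d n : ℤ) : ℂ)) ∘ fun t : ℝ => ⌊t⌋₊ := rfl
  rw [h1]
  exact (measurable_from_top).comp Nat.measurable_floor

/-- the integrand -/
noncomputable def fI (d : ℕ) (z : Fin 1 → ℂ) (t : ℝ) : ℂ :=
  (Ioi (1 : ℝ)).indicator (fun t => Sd d t * (t : ℂ) ^ (-(z 0 + 1))) t

lemma norm_fI_le {C : ℝ} (hC : 0 < C) {d : ℕ} (h : ∀ N : ℕ, ‖∑ n ∈ Finset.Icc 1 N, ((kron d n : ℤ) : ℂ)‖ ≤ C * d)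
    (z : Fin 1 → ℂ) {σ : ℝ} (hσ : σ ≤ (z 0).re) (t : ℝ) :
    ‖fI d z t‖ ≤ (Ioi (1 : ℝ)).indicator (fun t => C * d * t ^ (-σ - 1)) t := by
  unfold fI
  by_cases ht : t ∈ Ioi (1 : ℝ)
  · rw [indicator_of_mem ht, indicator_of_mem ht, norm_mul]
    have ht1 : (1 : ℝ) < t := ht
    refine mul_le_mul (h _) ?_ (norm_nonneg _) (by positivity)
    rw [Complex.norm_cpow_eq_rpow_re_of_pos (by linarith)]
    apply Real.rpow_le_rpow_of_exponent_le ht1.le
    simp only [neg_re, add_re, one_re]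
    linarith
  · rw [indicator_of_notMem ht, indicator_of_notMem ht, norm_zero]

lemma integrable_b (C : ℝ) (d : ℕ) {σ : ℝ} (hσ : 0 < σ) :
    Integrable ((Ioi (1 : ℝ)).indicator (fun t => C * d * t ^ (-σ - 1))) := by
  rw [integrable_indicator_iff measurableSet_Ioi]
  exact (integrableOn_Ioi_rpow_of_lt (by linarith) one_pos).const_mul _

lemma measurable_fI (d : ℕ) (z : Fin 1 → ℂ) : AEStronglyMeasurable (fI d z) := by
  refine Measurable.aestronglyMeasurable ?_
  unfold fI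
  refine Measurable.indicator ?_ measurableSet_Ioi
  exact (measurable_Sd d).mul (Complex.measurable_ofReal.pow_const _)

lemma fI_diff {d : ℕ} (hd : FundDisc d) (h1 : 1 < d) :
    DifferentiableOn ℂ (fun z : Fin 1 → ℂ => ∫ t, fI d z t) {z | 0 < (z 0).re} := by
  obtain ⟨C, hC, h⟩ := sum_bound
  refine differentiableOn_integral ?_ (fI d) ?_ (fun z _ => measurable_fI d z) ?_
  · exact isOpen_lt continuous_const (Complex.continuous_re.comp (continuous_apply 0))
  · intro t
    unfold fI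
    by_cases ht : t ∈ Ioi (1 : ℝ)
    · simp only [indicator_of_mem ht]
      have ht1 : (1 : ℝ) < t := ht
      have ht0 : (t : ℂ) ≠ 0 := by exact_mod_cast (by linarith : t ≠ 0)
      have h2 : Differentiable ℂ fun z : Fin 1 → ℂ => -(z 0 + 1) :=
        ((differentiable_apply 0).add_const 1).neg
      exact ((h2.const_cpow (Or.inl ht0)).const_mul (Sd d t)).differentiableOn
    · simp only [indicator_of_notMem ht]
      exact differentiableOn_const _
  · intro z0 hz0
    have hz0' : 0 < (z0 0).re := hz0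
    refine ⟨{z | (z0 0).re / 2 < (z 0).re}, ?_, _, integrable_b C d (σ := (z0 0).re / 2) (by linarith), ?_⟩
    · exact (isOpen_lt continuous_const (Complex.continuous_re.comp (continuous_apply 0))).mem_nhds (by
        simp only [Function.comp]
        show (z0 0).re / 2 < (z0 0).re
        linarith)
    · intro z hz t
      have hz' : (z0 0).re / 2 < (z 0).re := hz
      exact norm_fI_le hC (h d hd h1) z hz'.le t

/-- the integral representation to the right of the imaginary axis -/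
lemma Lx_int {d : ℕ} (hd : FundDisc d) (h1 : 1 < d) {s : ℂ} (hs : 0 < s.re) :
    Lx d s = s * ∫ t, fI d (fun _ => s) t := by
  set V : Set ℂ := {w | 0 < w.re} with hV
  have hVo : IsOpen V := isOpen_lt continuous_const continuous_re
  have hVc : IsPreconnected V := (convex_halfSpace_re_gt 0).isPreconnected
  have hf : AnalyticOnNhd ℂ (Lx d) V := (Lx_diff d).differentiableOn.analyticOnNhd hVo
  have hg : AnalyticOnNhd ℂ (fun s => s * ∫ t, fI d (fun _ => s) t) V := by
    refine DifferentiableOn.analyticOnNhd ?_ hVo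
    refine differentiableOn_id.mul ?_
    have h2 : DifferentiableOn ℂ (fun s : ℂ => (fun _ : Fin 1 => s)) V :=
      (differentiable_pi.2 fun _ => differentiable_id).differentiableOn
    exact (fI_diff hd h1).comp h2 fun w hw => hw
  have h2 : (2 : ℂ) ∈ V := by simp [hV]
  have heq : Lx d =ᶠ[𝓝 2] (fun s => s * ∫ t, fI d (fun _ => s) t) := by
    have h3 : {w : ℂ | 1 < w.re} ∈ 𝓝 (2 : ℂ) :=
      (isOpen_lt continuous_const continuous_re).mem_nhds (by simp)
    filter_upwards [h3] with w hw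
    have hw' : 1 < w.re := hw
    obtain ⟨C, hC, h⟩ := sum_bound
    rw [Lx_eq hd h1 hw', Lchi]
    have h4 := LSeries_eq_mul_integral (fun n => ((kron d n : ℤ) : ℂ)) (r := 0) le_rfl (s := w) (by linarith)
      (LSeriesSummable_of_bounded_of_one_lt_re (fun n _ => norm_kron_le d n) hw') (by
        refine Asymptotics.IsBigO.of_bound (C * d) (Eventually.of_forall fun n => ?_)
        simpa using h d hd h1 n)
    rw [h4]
    congr 1
    unfold fI
    rw [integral_indicator measurableSet_Ioi]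
    rfl
  exact hf.eqOn_of_preconnected_of_eventuallyEq hg hVc h2 heq hs

/-- the trivial bound -/
lemma Lx_bound : ∃ C : ℝ, 0 < C ∧ ∀ d : ℕ, FundDisc d → 1 < d → ∀ s : ℂ, 1 / 4 ≤ s.re → ‖Lx d s‖ ≤ C * d * ‖s‖ := by
  obtain ⟨C, hC, h⟩ := sum_bound
  refine ⟨4 * C, by positivity, fun d hd h1 s hs => ?_⟩
  rw [Lx_int hd h1 (by linarith), norm_mul]
  have h2 : ‖∫ t, fI d (fun _ => s) t‖ ≤ 4 * (C * d) := by
    have h3 := norm_integral_le_of_norm_le (integrable_b C d (σ := 1 / 4) (by norm_num))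
      (Eventually.of_forall fun t => norm_fI_le hC (h d hd h1) (fun _ => s) hs t)
    refine h3.trans (le_of_eq ?_)
    rw [integral_indicator measurableSet_Ioi, integral_const_mul, integral_Ioi_rpow_of_lt (by norm_num) one_pos]
    norm_num
    ring
  calc ‖s‖ * ‖∫ t, fI d (fun _ => s) t‖ ≤ ‖s‖ * (4 * (C * d)) := mul_le_mul_of_nonneg_left h2 (norm_nonneg _)
    _ = 4 * C * d * ‖s‖ := by ring

/-- conjugation -/
lemma Lx_conj {d : ℕ} (hd : FundDisc d) (h1 : 1 < d) {s : ℂ} (hs : 0 < s.re) :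
    Lx d ((starRingEnd ℂ) s) = (starRingEnd ℂ) (Lx d s) := by
  rw [Lx_int hd h1 hs, Lx_int hd h1 (by simpa using hs), map_mul, ← integral_conj]
  congr 1
  refine integral_congr_ae (Eventually.of_forall fun t => ?_)
  simp only [fI]
  by_cases ht : t ∈ Ioi (1 : ℝ)
  · rw [indicator_of_mem ht, indicator_of_mem ht, map_mul]
    have ht1 : (1 : ℝ) < t := ht
    congr 1
    · unfold Sd
      rw [map_sum]
      refine Finset.sum_congr rfl fun n _ => ?_
      rw [map_intCast]
    · have h2 := Complex.cpow_conj (t : ℂ) (-(s + 1)) (by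
        rw [Complex.arg_ofReal_of_nonneg (by linarith)]
        exact Real.pi_ne_zero.symm)
      rw [Complex.conj_ofReal] at h2
      rw [← h2]
      congr 1
      simp
  · rw [indicator_of_notMem ht, indicator_of_notMem ht, map_zero]

end Pool.Agent.L5helper5.LE
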