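import Mathlib
import Pool.Agent.L5helper5.LE.Lfun

/-!
# From the line `Re s = 1/2` to half-planes
-/

set_option autoImplicit false

namespace Pool.Agent.L5helper5.LE

open Complex Filter Topology MeasureTheory Set
open Pool.Agent.Q48.MDS (FundDisc kron Lchi norm_kron_le Zc Zc_nonneg norm_LSeries_le summable_bound)

/-- the bound with exponent `a` on the line `Re s = 1/2` -/
def LBx (a : ℝ) : Prop := ∃ (C : ℝ) (N : ℕ), ∀ d : ℕ, FundDisc d → 1 < d → ∀ t : ℝ,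
  ‖Lx d (1 / 2 + I * t)‖ ≤ C * (d : ℝ) ^ a * (1 + |t|) ^ N

lemma Zc_le {c : ℝ} (hc : 2 ≤ c) : Zc c ≤ Zc 2 := by
  unfold Zc
  refine (summable_bound (by linarith)).tsum_le_tsum (fun n => ?_) (summable_bound (by norm_num))
  split_ifs with h
  · exact le_rfl
  · have hn : (1 : ℝ) ≤ n := by exact_mod_cast Nat.one_le_iff_ne_zero.2 h
    exact Real.rpow_le_rpow_of_exponent_le hn (by linarith)

lemma Lx_le_two {d : ℕ} (hd : FundDisc d) (h1 : 1 < d) {s : ℂ} (hs : 2 ≤ s.re) : ‖Lx d s‖ ≤ Zc 2 := by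
  rw [Lx_eq hd h1 (by linarith), Lchi]
  exact (norm_LSeries_le (fun n => norm_kron_le d n) (by linarith)).trans (Zc_le hs)

lemma two_norm {s : ℂ} (hs : 0 ≤ s.re) : 1 ≤ ‖s + 2‖ ∧ ‖s‖ ≤ ‖s + 2‖ ∧ 1 + |s.im| ≤ 2 * ‖s + 2‖ := by
  have h1 : (s + 2).re = s.re + 2 := by simp
  have h2 : (s + 2).im = s.im := by simp
  have h3 : (s + 2).re ≤ ‖s + 2‖ := Complex.re_le_norm _
  have h4 : |(s + 2).im| ≤ ‖s + 2‖ := Complex.abs_im_le_norm _
  refine ⟨by linarith, ?_, by rw [h2] at h4; linarith⟩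
  rw [Complex.norm_eq_sqrt_sq_add_sq, Complex.norm_eq_sqrt_sq_add_sq]
  apply Real.sqrt_le_sqrt
  rw [h1, h2]
  nlinarith

lemma norm_add_two_le {s : ℂ} (h0 : 0 ≤ s.re) (h2 : s.re ≤ 2) : ‖s + 2‖ ≤ 4 * (1 + |s.im|) := by
  have h3 := Complex.norm_le_abs_re_add_abs_im (s + 2)
  have h4 : (s + 2).re = s.re + 2 := by simp
  have h5 : (s + 2).im = s.im := by simp
  rw [h4, h5, abs_of_nonneg (by linarith)] at h3
  have := abs_nonneg s.im
  linarith

/-- the auxiliary function of the Phragmén–Lindelöf principle -/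
noncomputable def aux (d : ℕ) (a b : ℝ) (N : ℕ) (s : ℂ) : ℂ :=
  Lx d s * cexp (-(Real.log d : ℂ) * (a + b * (1 / 2 - s))) * ((s + 2) ^ (N + 1))⁻¹

lemma aux_norm {d : ℕ} (hd1 : 1 < d) (a b : ℝ) (N : ℕ) (s : ℂ) :
    ‖aux d a b N s‖ = ‖Lx d s‖ * (d : ℝ) ^ (-(a + b * (1 / 2 - s.re))) * (‖s + 2‖ ^ (N + 1))⁻¹ := by
  have hd0 : (0 : ℝ) < d := by exact_mod_cast (by omega : 0 < d)
  unfold aux
  rw [norm_mul, norm_mul, norm_inv, norm_pow]
  congr 2
  rw [Complex.norm_exp, Real.rpow_def_of_pos hd0]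
  congr 1
  have h1 : (-(Real.log d : ℂ) * (a + b * (1 / 2 - s))).re = -Real.log d * (a + b * (1 / 2 - s.re)) := by
    have h2 : -(Real.log d : ℂ) = ((-Real.log d : ℝ) : ℂ) := by push_cast; rfl
    rw [h2, Complex.re_ofReal_mul]
    congr 1
    have h3 : ((a : ℂ) + b * (1 / 2 - s)).re = a + b * (1 / 2 - s.re) := by
      simp
    exact h3
  rw [h1]
  ring

lemma aux_diff (d : ℕ) (a b : ℝ) (N : ℕ) {x y : ℝ} (hx : 0 ≤ x) :
    DiffContOnCl ℂ (aux d a b N) (re ⁻¹' Ioo x y) := by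
  have h1 : DifferentiableOn ℂ (aux d a b N) {s | 0 ≤ s.re} := by
    unfold aux
    refine DifferentiableOn.mul (DifferentiableOn.mul (Lx_diff d).differentiableOn ?_) ?_
    · refine Differentiable.differentiableOn ?_
      fun_prop
    · refine DifferentiableOn.inv (by fun_prop) fun s hs => ?_
      apply pow_ne_zero
      intro h0
      have := (two_norm (s := s) hs).1
      rw [h0, norm_zero] at this
      linarith
  refine DifferentiableOn.diffContOnCl (h1.mono ?_)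
  refine closure_minimal ?_ (isClosed_le continuous_const Complex.continuous_re)
  intro s hs
  have h2 : x < s.re := hs.1
  show 0 ≤ s.re
  linarith

/-- the bound in the half-planes `Re s ≥ 1/2 - δ` -/
theorem half_bound {a : ℝ} (ha : 0 ≤ a) (h : LBx a) {δ : ℝ} (hδ : 0 < δ) (hδ4 : δ ≤ 1 / 4) :
    ∃ (C : ℝ) (N : ℕ), 0 < C ∧ ∀ d : ℕ, FundDisc d → 1 < d → ∀ s : ℂ, 1 / 2 - δ ≤ s.re →
      ‖Lx d s‖ ≤ C * (d : ℝ) ^ (a + 4 * δ) * (1 + |s.im|) ^ N := by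
  obtain ⟨C2, N, h2⟩ := h
  obtain ⟨C1, hC1, hb⟩ := Lx_bound
  have hZ := Zc_nonneg 2
  set K : ℝ := C1 + |C2| * 2 ^ N + Zc 2 with hK
  have hK0 : 0 < K := by positivity
  -- the value on the line 1/2
  have hmid : ∀ d : ℕ, FundDisc d → 1 < d → ∀ b : ℝ, ∀ s : ℂ, s.re = 1 / 2 → ‖aux d a b N s‖ ≤ K := by
    intro d hd h1 b s hs
    have hd0 : (0 : ℝ) < d := by exact_mod_cast (by omega : 0 < d)
    rw [aux_norm h1, hs]
    have e1 : -(a + b * (1 / 2 - 1 / 2)) = -a := by ring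
    rw [e1]
    have e2 : s = 1 / 2 + I * (s.im : ℂ) := by
      apply Complex.ext <;> simp [hs]
    have h3 := h2 d hd h1 s.im
    rw [← e2] at h3
    obtain ⟨t1, t2, t3⟩ := two_norm (s := s) (by rw [hs]; norm_num)
    have h4 : ‖Lx d s‖ * (d : ℝ) ^ (-a) ≤ |C2| * (1 + |s.im|) ^ N := by
      have h5 : ‖Lx d s‖ ≤ |C2| * (d : ℝ) ^ a * (1 + |s.im|) ^ N := by
        refine h3.trans ?_
        gcongr
        exact le_abs_self C2
      calc ‖Lx d s‖ * (d : ℝ) ^ (-a) ≤ (|C2| * (d : ℝ) ^ a * (1 + |s.im|) ^ N) * (d : ℝ) ^ (-a) :=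
            mul_le_mul_of_nonneg_right h5 (by positivity)
        _ = |C2| * (1 + |s.im|) ^ N * ((d : ℝ) ^ a * (d : ℝ) ^ (-a)) := by ring
        _ = |C2| * (1 + |s.im|) ^ N := by
            rw [← Real.rpow_add hd0, add_neg_cancel, Real.rpow_zero, mul_one]
    have h6 : (1 + |s.im|) ^ N ≤ 2 ^ N * ‖s + 2‖ ^ N := by
      rw [← mul_pow]
      exact pow_le_pow_left₀ (by positivity) t3 N
    have hpos : 0 < ‖s + 2‖ ^ (N + 1) := by positivity
    have h7 : ‖s + 2‖ ^ N * (‖s + 2‖ ^ (N + 1))⁻¹ ≤ 1 := by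
      rw [← div_eq_mul_inv, div_le_one hpos]
      exact pow_le_pow_right₀ t1 (by omega)
    calc ‖Lx d s‖ * (d : ℝ) ^ (-a) * (‖s + 2‖ ^ (N + 1))⁻¹
        ≤ |C2| * (2 ^ N * ‖s + 2‖ ^ N) * (‖s + 2‖ ^ (N + 1))⁻¹ := by
          refine mul_le_mul_of_nonneg_right (h4.trans ?_) (by positivity)
          exact mul_le_mul_of_nonneg_left h6 (abs_nonneg _)
      _ = |C2| * 2 ^ N * (‖s + 2‖ ^ N * (‖s + 2‖ ^ (N + 1))⁻¹) := by ring
      _ ≤ |C2| * 2 ^ N * 1 := mul_le_mul_of_nonneg_left h7 (by positivity)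
      _ ≤ K := by rw [hK]; linarith
  -- the crude bound
  have hcrude : ∀ d : ℕ, FundDisc d → 1 < d → ∀ b : ℝ, ∀ s : ℂ, 1 / 4 ≤ s.re →
      0 ≤ a + b * (1 / 2 - s.re) → ‖aux d a b N s‖ ≤ C1 * d := by
    intro d hd h1 b s hs hab
    have hd1 : (1 : ℝ) ≤ d := by exact_mod_cast h1.le
    rw [aux_norm h1]
    obtain ⟨t1, t2, t3⟩ := two_norm (s := s) (by linarith)
    have h3 := hb d hd h1 s hs
    have h4 : (d : ℝ) ^ (-(a + b * (1 / 2 - s.re))) ≤ 1 := Real.rpow_le_one_of_one_le_of_nonpos hd1 (by linarith)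
    have hpos : 0 < ‖s + 2‖ ^ (N + 1) := by positivity
    have h5 : ‖s‖ * (‖s + 2‖ ^ (N + 1))⁻¹ ≤ 1 := by
      rw [← div_eq_mul_inv, div_le_one hpos]
      calc ‖s‖ ≤ ‖s + 2‖ := t2
        _ = ‖s + 2‖ ^ 1 := (pow_one _).symm
        _ ≤ ‖s + 2‖ ^ (N + 1) := pow_le_pow_right₀ t1 (by omega)
    calc ‖Lx d s‖ * (d : ℝ) ^ (-(a + b * (1 / 2 - s.re))) * (‖s + 2‖ ^ (N + 1))⁻¹
        ≤ (C1 * d * ‖s‖) * 1 * (‖s + 2‖ ^ (N + 1))⁻¹ := by
          refine mul_le_mul_of_nonneg_right ?_ (by positivity)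
          exact mul_le_mul h3 h4 (by positivity) (by positivity)
      _ = C1 * d * (‖s‖ * (‖s + 2‖ ^ (N + 1))⁻¹) := by ring
      _ ≤ C1 * d * 1 := mul_le_mul_of_nonneg_left h5 (by positivity)
      _ = C1 * d := mul_one _
  -- the strip to the left of 1/2
  have hleft : ∀ d : ℕ, FundDisc d → 1 < d → ∀ s : ℂ, 1 / 4 ≤ s.re → s.re ≤ 1 / 2 → ‖aux d a 4 N s‖ ≤ K := by
    intro d hd h1 s hs1 hs2
    have hd1 : (1 : ℝ) ≤ d := by exact_mod_cast h1.le
    have hd0 : (0 : ℝ) < d := by linarith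
    refine PhragmenLindelof.vertical_strip (a := 1 / 4) (b := 1 / 2) (aux_diff d a 4 N (by norm_num)) ?_ ?_
      (fun z hz => hmid d hd h1 4 z hz) hs1 hs2
    · refine ⟨0, by positivity, 0, ?_⟩
      refine Asymptotics.IsBigO.of_bound (C1 * d) ?_
      have hmem : re ⁻¹' Ioo (1 / 4) (1 / 2) ∈ comap (_root_.abs ∘ im) atTop ⊓ 𝓟 (re ⁻¹' Ioo (1 / 4) (1 / 2)) :=
        mem_inf_of_right (mem_principal_self _)
      filter_upwards [hmem] with z hz
      have hz1 : 1 / 4 < z.re := hz.1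
      have hz2 : z.re < 1 / 2 := hz.2
      have := hcrude d hd h1 4 z hz1.le (by linarith)
      simpa using this
    · intro z hz
      rw [aux_norm h1, hz]
      have h3 := hb d hd h1 z (by rw [hz])
      obtain ⟨t1, t2, t3⟩ := two_norm (s := z) (by rw [hz]; norm_num)
      have h4 : (d : ℝ) ^ (-(a + 4 * (1 / 2 - 1 / 4))) ≤ (d : ℝ) ^ (-1 : ℝ) :=
        Real.rpow_le_rpow_of_exponent_le hd1 (by linarith)
      have hpos : 0 < ‖z + 2‖ ^ (N + 1) := by positivity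
      have h5 : ‖z‖ * (‖z + 2‖ ^ (N + 1))⁻¹ ≤ 1 := by
        rw [← div_eq_mul_inv, div_le_one hpos]
        calc ‖z‖ ≤ ‖z + 2‖ := t2
          _ = ‖z + 2‖ ^ 1 := (pow_one _).symm
          _ ≤ ‖z + 2‖ ^ (N + 1) := pow_le_pow_right₀ t1 (by omega)
      calc ‖Lx d z‖ * (d : ℝ) ^ (-(a + 4 * (1 / 2 - 1 / 4))) * (‖z + 2‖ ^ (N + 1))⁻¹
          ≤ (C1 * d * ‖z‖) * (d : ℝ) ^ (-1 : ℝ) * (‖z + 2‖ ^ (N + 1))⁻¹ := by
            refine mul_le_mul_of_nonneg_right ?_ (by positivity)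
            exact mul_le_mul h3 h4 (by positivity) (by positivity)
        _ = C1 * (‖z‖ * (‖z + 2‖ ^ (N + 1))⁻¹) := by
            rw [Real.rpow_neg_one]
            field_simp
        _ ≤ C1 * 1 := mul_le_mul_of_nonneg_left h5 hC1.le
        _ ≤ K := by
          rw [hK]
          have : 0 ≤ |C2| * 2 ^ N := by positivity
          linarith
  -- the strip to the right of 1/2
  have hright : ∀ d : ℕ, FundDisc d → 1 < d → ∀ s : ℂ, 1 / 2 ≤ s.re → s.re ≤ 2 → ‖aux d a 0 N s‖ ≤ K := by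
    intro d hd h1 s hs1 hs2
    have hd1 : (1 : ℝ) ≤ d := by exact_mod_cast h1.le
    have hd0 : (0 : ℝ) < d := by linarith
    refine PhragmenLindelof.vertical_strip (a := 1 / 2) (b := 2) (aux_diff d a 0 N (by norm_num)) ?_
      (fun z hz => hmid d hd h1 0 z hz) ?_ hs1 hs2
    · refine ⟨0, by positivity, 0, ?_⟩
      refine Asymptotics.IsBigO.of_bound (C1 * d) ?_
      have hmem : re ⁻¹' Ioo (1 / 2) 2 ∈ comap (_root_.abs ∘ im) atTop ⊓ 𝓟 (re ⁻¹' Ioo (1 / 2) 2) :=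
        mem_inf_of_right (mem_principal_self _)
      filter_upwards [hmem] with z hz
      have hz1 : 1 / 2 < z.re := hz.1
      have := hcrude d hd h1 0 z (by linarith) (by linarith)
      simpa using this
    · intro z hz
      rw [aux_norm h1]
      have h3 := Lx_le_two hd h1 (s := z) (by rw [hz])
      obtain ⟨t1, t2, t3⟩ := two_norm (s := z) (by rw [hz]; norm_num)
      have h4 : (d : ℝ) ^ (-(a + 0 * (1 / 2 - z.re))) ≤ 1 := Real.rpow_le_one_of_one_le_of_nonpos hd1 (by linarith)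
      have h5 : (‖z + 2‖ ^ (N + 1))⁻¹ ≤ 1 := inv_le_one_of_one_le₀ (one_le_pow₀ t1)
      calc ‖Lx d z‖ * (d : ℝ) ^ (-(a + 0 * (1 / 2 - z.re))) * (‖z + 2‖ ^ (N + 1))⁻¹
          ≤ Zc 2 * 1 * 1 := by
            refine mul_le_mul ?_ h5 (by positivity) (by positivity)
            exact mul_le_mul h3 h4 (by positivity) hZ
        _ ≤ K := by
          rw [hK]
          have : 0 ≤ |C2| * 2 ^ N := by positivity
          linarith
  -- conclusion
  refine ⟨K * 4 ^ (N + 1), N + 1, by positivity, fun d hd h1 s hs => ?_⟩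
  have hd1 : (1 : ℝ) ≤ d := by exact_mod_cast h1.le
  have hd0 : (0 : ℝ) < d := by linarith
  have him : 1 ≤ 1 + |s.im| := by linarith [abs_nonneg s.im]
  have hback : ∀ b : ℝ, ‖aux d a b N s‖ ≤ K → a + b * (1 / 2 - s.re) ≤ a + 4 * δ → 0 ≤ s.re → s.re ≤ 2 →
      ‖Lx d s‖ ≤ K * 4 ^ (N + 1) * (d : ℝ) ^ (a + 4 * δ) * (1 + |s.im|) ^ (N + 1) := by
    intro b hbK hab hs0 hs2
    rw [aux_norm h1] at hbK
    obtain ⟨t1, t2, t3⟩ := two_norm (s := s) hs0
    have hpos : 0 < ‖s + 2‖ ^ (N + 1) := by positivity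
    have h4 : ‖Lx d s‖ ≤ K * (d : ℝ) ^ (a + b * (1 / 2 - s.re)) * ‖s + 2‖ ^ (N + 1) := by
      rw [Real.rpow_neg hd0.le, ← div_eq_mul_inv, ← div_eq_mul_inv, div_le_iff₀ hpos, div_le_iff₀ (by positivity)] at hbK
      linarith
    refine h4.trans ?_
    have h5 : (d : ℝ) ^ (a + b * (1 / 2 - s.re)) ≤ (d : ℝ) ^ (a + 4 * δ) := Real.rpow_le_rpow_of_exponent_le hd1 hab
    have h6 : ‖s + 2‖ ^ (N + 1) ≤ 4 ^ (N + 1) * (1 + |s.im|) ^ (N + 1) := by
      rw [← mul_pow]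
      exact pow_le_pow_left₀ (norm_nonneg _) (norm_add_two_le hs0 hs2) _
    calc K * (d : ℝ) ^ (a + b * (1 / 2 - s.re)) * ‖s + 2‖ ^ (N + 1)
        ≤ K * (d : ℝ) ^ (a + 4 * δ) * (4 ^ (N + 1) * (1 + |s.im|) ^ (N + 1)) := by
          refine mul_le_mul (mul_le_mul_of_nonneg_left h5 hK0.le) h6 (by positivity) (by positivity)
      _ = _ := by ring
  rcases le_total s.re (1 / 2) with h3 | h3
  · exact hback 4 (hleft d hd h1 s (by linarith) h3) (by linarith) (by linarith) (by linarith)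
  · rcases le_total s.re 2 with h4 | h4
    · exact hback 0 (hright d hd h1 s h3 h4) (by linarith) (by linarith) h4
    · refine (Lx_le_two hd h1 h4).trans ?_
      have h5 : 1 ≤ (d : ℝ) ^ (a + 4 * δ) := Real.one_le_rpow hd1 (by positivity)
      have h6 : 1 ≤ (1 + |s.im|) ^ (N + 1) := one_le_pow₀ him
      have h7 : (1 : ℝ) ≤ 4 ^ (N + 1) := one_le_pow₀ (by norm_num)
      have h8 : Zc 2 ≤ K := by
        rw [hK]
        have : 0 ≤ |C2| * 2 ^ N := by positivity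
        linarith
      calc Zc 2 ≤ K := h8
        _ = K * 1 * 1 * 1 := by ring
        _ ≤ K * 4 ^ (N + 1) * (d : ℝ) ^ (a + 4 * δ) * (1 + |s.im|) ^ (N + 1) := by
          refine mul_le_mul (mul_le_mul (mul_le_mul_of_nonneg_left h7 hK0.le) h5 (by norm_num) (by positivity)) h6
            (by norm_num) (by positivity)

end Pool.Agent.L5helper5.LE
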