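import Mathlib
import Pool.Agent.L5helper5.LE.PL

/-!
# The series over the fundamental discriminants greater than one
-/

set_option autoImplicit false

namespace Pool.Agent.L5helper5.LE

open Complex Filter Topology MeasureTheory Set
open Pool.Agent.Q48.MDS

open Classical in
/-- the terms of the series -/
noncomputable def tm (k M : ℕ) (d : ℕ) (z : Fin (k + 1) → ℂ) : ℂ :=
  if FundDisc d ∧ 1 < d then (kron d M : ℂ) * (d : ℂ) ^ (-(z 0)) * ∏ j : Fin k, Lx d (z j.succ) else 0

/-- the series -/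
noncomputable def S (k M : ℕ) (z : Fin (k + 1) → ℂ) : ℂ := ∑' d : ℕ, tm k M d z

/-- the polar factor -/
noncomputable def P (k : ℕ) (z : Fin (k + 1) → ℂ) : ℂ := ∏ J : Finset (Fin k), (sigma J z - 1)

/-- the size of the imaginary parts -/
noncomputable def im1 {n : ℕ} (z : Fin n → ℂ) : ℝ := 1 + ‖fun i => (z i).im‖

lemma im1_ge {n : ℕ} (z : Fin n → ℂ) : 1 ≤ im1 z := by
  have := norm_nonneg (fun i => (z i).im)
  unfold im1
  linarith

lemma im1_le {n : ℕ} (z : Fin n → ℂ) (i : Fin n) : 1 + |(z i).im| ≤ im1 z := by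
  have := norm_le_pi_norm (fun i => (z i).im) i
  unfold im1
  rw [Real.norm_eq_abs] at this
  linarith

lemma tm_diff (k M d : ℕ) : Differentiable ℂ (tm k M d) := by
  unfold tm
  by_cases h : FundDisc d ∧ 1 < d
  · simp only [if_pos h]
    have hd : (d : ℂ) ≠ 0 := by exact_mod_cast (by omega : d ≠ 0)
    refine Differentiable.mul (Differentiable.mul (differentiable_const _) ?_) ?_
    · exact ((differentiable_apply 0).neg).const_cpow (Or.inl hd)
    · intro z
      have h1 : ∀ j : Fin k, DifferentiableAt ℂ (fun z : Fin (k + 1) → ℂ => Lx d (z j.succ)) z := fun j =>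
        ((Lx_diff d) _).comp z (differentiable_apply _ z)
      exact (HasFDerivAt.finsetProd (g := fun (j : Fin k) (z : Fin (k + 1) → ℂ) => Lx d (z j.succ))
        (fun j _ => (h1 j).hasFDerivAt)).differentiableAt
  · simp only [if_neg h]
    exact differentiable_const _

/-- a locally uniform bound gives a holomorphic function of polynomial growth -/
lemma S_of_bound {k M : ℕ} {V : Set (Fin (k + 1) → ℝ)} (hV : IsOpen V) {r C : ℝ} {N : ℕ} (hr : 1 < r) (hC : 0 ≤ C)
    (hb : ∀ z ∈ tube V, ∀ d : ℕ, ‖tm k M d z‖ ≤ C * (d : ℝ) ^ (-r) * im1 z ^ N) :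
    DifferentiableOn ℂ (S k M) (tube V) ∧
      (∀ z ∈ tube V, Summable fun d => tm k M d z) ∧
      ∃ C' : ℝ, 0 ≤ C' ∧ ∀ z ∈ tube V, ‖S k M z‖ ≤ C' * im1 z ^ N := by
  have hs := Real.summable_nat_rpow.2 (show -r < -1 by linarith)
  have hsum : ∀ z ∈ tube V, Summable fun d => ‖tm k M d z‖ := fun z hz =>
    Summable.of_nonneg_of_le (fun _ => norm_nonneg _) (hb z hz) ((hs.mul_left C).mul_right _)
  refine ⟨?_, fun z hz => (hsum z hz).of_norm, C * ∑' d : ℕ, (d : ℝ) ^ (-r), ?_, fun z hz => ?_⟩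
  · have h1 : DifferentiableOn ℂ (fun z => ∫ d, tm k M d z ∂(Measure.count : Measure ℕ)) (tube V) := by
      refine differentiableOn_integral (isOpen_tube hV) (fun z d => tm k M d z)
        (fun d => (tm_diff k M d).differentiableOn) (fun z _ => ?_) (fun z0 hz0 => ?_)
      · exact (measurable_from_top).aestronglyMeasurable
      · refine ⟨tube V ∩ {z | im1 z < im1 z0 + 1}, ?_, fun d => C * (d : ℝ) ^ (-r) * (im1 z0 + 1) ^ N, ?_, ?_⟩
        · refine inter_mem ((isOpen_tube hV).mem_nhds hz0) ?_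
          have hc : Continuous (im1 : (Fin (k + 1) → ℂ) → ℝ) := by
            unfold im1
            exact continuous_const.add (continuous_pi fun i => Complex.continuous_im.comp (continuous_apply i)).norm
          exact (isOpen_lt hc continuous_const).mem_nhds (show im1 z0 < im1 z0 + 1 by linarith)
        · rw [integrable_count_iff]
          exact ((hs.mul_left C).mul_right _).norm
        · intro z hz d
          refine (hb z hz.1 d).trans ?_
          refine mul_le_mul_of_nonneg_left ?_ (by positivity)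
          exact pow_le_pow_left₀ (by linarith [im1_ge z]) hz.2.le N
    refine h1.congr fun z hz => ?_
    rw [integral_countable (integrable_count_iff.2 (hsum z hz))]
    unfold S
    refine tsum_congr fun d => ?_
    simp
  · exact mul_nonneg hC (tsum_nonneg fun d => by positivity)
  · have h2 := tsum_of_norm_bounded (((hs.mul_left C).mul_right (im1 z ^ N)).hasSum) (hb z hz)
    refine h2.trans (le_of_eq ?_)
    rw [tsum_mul_right, tsum_mul_left]

/-- the bound in a half-plane -/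
def HB (δ b B : ℝ) (N : ℕ) : Prop := ∀ d : ℕ, FundDisc d → 1 < d → ∀ s : ℂ, 1 / 2 - δ ≤ s.re →
  ‖Lx d s‖ ≤ B * (d : ℝ) ^ b * (1 + |s.im|) ^ N

/-- the region -/
def Om (k : ℕ) (w δ : ℝ) : Set (Fin (k + 1) → ℝ) := {x | w < x 0 ∧ ∀ j : Fin k, 1 / 2 - δ < x j.succ}

lemma isOpen_Om (k : ℕ) (w δ : ℝ) : IsOpen (Om k w δ) := by
  have : Om k w δ = {x | w < x 0} ∩ ⋂ j : Fin k, {x : Fin (k + 1) → ℝ | 1 / 2 - δ < x j.succ} := by
    ext x; simp [Om]
  rw [this]
  exact (isOpen_lt continuous_const (continuous_apply 0)).inter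
    (isOpen_iInter_of_finite fun j => isOpen_lt continuous_const (continuous_apply _))

lemma convex_lt_aux {a b x y c : ℝ} (ha : 0 ≤ a) (hb : 0 ≤ b) (hab : a + b = 1) (hx : c < x) (hy : c < y) :
    c < a * x + b * y := by
  rcases eq_or_lt_of_le ha with h | h
  · subst h
    have hb1 : b = 1 := by linarith
    subst hb1; linarith
  · have h1 : a * x + b * y - c = a * (x - c) + b * (y - c) := by linear_combination c * hab
    have h2 : 0 < a * (x - c) := mul_pos h (sub_pos.2 hx)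
    have h3 : 0 ≤ b * (y - c) := mul_nonneg hb (sub_nonneg.2 hy.le)
    linarith

lemma convex_Om (k : ℕ) (w δ : ℝ) : Convex ℝ (Om k w δ) := by
  intro x hx y hy a b ha hb hab
  refine ⟨?_, fun j => ?_⟩
  · exact convex_lt_aux ha hb hab hx.1 hy.1
  · exact convex_lt_aux ha hb hab (hx.2 j) (hy.2 j)

lemma convex_orth (n : ℕ) : Convex ℝ (orth n) := by
  intro x hx y hy a b ha hb hab i
  exact convex_lt_aux ha hb hab (hx i) (hy i)

lemma tm_bound_Om {k M : ℕ} {δ b B : ℝ} {N : ℕ} (hB : 0 ≤ B) (h : HB δ b B N) {w : ℝ}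
    {z : Fin (k + 1) → ℂ} (hz : z ∈ tube (Om k w δ)) (d : ℕ) :
    ‖tm k M d z‖ ≤ B ^ k * (d : ℝ) ^ (-(w - k * b)) * im1 z ^ (N * k) := by
  unfold tm
  split_ifs with hd
  · obtain ⟨hd1, hd2⟩ := hd
    have hdr : (1 : ℝ) ≤ d := by exact_mod_cast hd2.le
    have hd0 : (0 : ℝ) < d := by linarith
    rw [norm_mul, norm_mul, norm_prod]
    have h1 : ‖((kron d M : ℤ) : ℂ)‖ ≤ 1 := norm_kron_le d M
    have h2 : ‖(d : ℂ) ^ (-(z 0))‖ ≤ (d : ℝ) ^ (-w) := by
      rw [Complex.norm_natCast_cpow_of_pos (by omega)]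
      apply Real.rpow_le_rpow_of_exponent_le hdr
      have : w < (z 0).re := hz.1
      rw [neg_re]
      linarith
    have h3 : ∏ j : Fin k, ‖Lx d (z j.succ)‖ ≤ (B * (d : ℝ) ^ b * im1 z ^ N) ^ k := by
      have h4 : ∏ _j : Fin k, (B * (d : ℝ) ^ b * im1 z ^ N) = (B * (d : ℝ) ^ b * im1 z ^ N) ^ k := by simp
      rw [← h4]
      refine Finset.prod_le_prod (fun _ _ => norm_nonneg _) fun j _ => ?_
      have h5 : 1 / 2 - δ < (z j.succ).re := hz.2 j
      refine (h d hd1 hd2 _ h5.le).trans ?_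
      refine mul_le_mul_of_nonneg_left ?_ (by positivity)
      exact pow_le_pow_left₀ (by positivity) (im1_le z _) N
    calc ‖((kron d M : ℤ) : ℂ)‖ * ‖(d : ℂ) ^ (-(z 0))‖ * ∏ j : Fin k, ‖Lx d (z j.succ)‖
        ≤ 1 * (d : ℝ) ^ (-w) * (B * (d : ℝ) ^ b * im1 z ^ N) ^ k := by
          refine mul_le_mul (mul_le_mul h1 h2 (norm_nonneg _) zero_le_one) h3 ?_ (by positivity)
          exact Finset.prod_nonneg fun _ _ => norm_nonneg _
      _ = B ^ k * ((d : ℝ) ^ (-w) * ((d : ℝ) ^ b) ^ k) * im1 z ^ (N * k) := by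
          rw [mul_pow, mul_pow, ← pow_mul]
          ring
      _ = B ^ k * (d : ℝ) ^ (-(w - k * b)) * im1 z ^ (N * k) := by
          rw [← Real.rpow_natCast ((d : ℝ) ^ b) k, ← Real.rpow_mul hd0.le, ← Real.rpow_add hd0]
          congr 3
          ring
  · rw [norm_zero]
    have := im1_ge z
    have : 0 ≤ im1 z := by linarith
    positivity

lemma Zc_mono {c c' : ℝ} (hc : 1 < c) (h : c ≤ c') : Zc c' ≤ Zc c := by
  unfold Zc
  refine (summable_bound (by linarith)).tsum_le_tsum (fun n => ?_) (summable_bound hc)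
  split_ifs with h0
  · exact le_rfl
  · have hn : (1 : ℝ) ≤ n := by exact_mod_cast Nat.one_le_iff_ne_zero.2 h0
    exact Real.rpow_le_rpow_of_exponent_le hn (by linarith)

/-- a smaller orthant -/
def orc (n : ℕ) (c : ℝ) : Set (Fin n → ℝ) := {x | ∀ i, c < x i}

lemma isOpen_orc (n : ℕ) (c : ℝ) : IsOpen (orc n c) := by
  have : orc n c = ⋂ i, {x : Fin n → ℝ | c < x i} := by ext x; simp [orc]
  rw [this]
  exact isOpen_iInter_of_finite fun i => isOpen_lt continuous_const (continuous_apply i)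

lemma tm_bound_orc {k M : ℕ} {c : ℝ} (hc : 1 < c) {z : Fin (k + 1) → ℂ} (hz : z ∈ tube (orc (k + 1) c)) (d : ℕ) :
    ‖tm k M d z‖ ≤ Zc c ^ k * (d : ℝ) ^ (-c) * im1 z ^ 0 := by
  unfold tm
  have hZ := Zc_nonneg c
  rw [pow_zero, mul_one]
  split_ifs with hd
  · obtain ⟨hd1, hd2⟩ := hd
    have hdr : (1 : ℝ) ≤ d := by exact_mod_cast hd2.le
    have hd0 : (0 : ℝ) < d := by linarith
    rw [norm_mul, norm_mul, norm_prod]
    have h1 : ‖((kron d M : ℤ) : ℂ)‖ ≤ 1 := norm_kron_le d M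
    have h2 : ‖(d : ℂ) ^ (-(z 0))‖ ≤ (d : ℝ) ^ (-c) := by
      rw [Complex.norm_natCast_cpow_of_pos (by omega)]
      apply Real.rpow_le_rpow_of_exponent_le hdr
      have : c < (z 0).re := hz 0
      rw [neg_re]
      linarith
    have h3 : ∏ j : Fin k, ‖Lx d (z j.succ)‖ ≤ Zc c ^ k := by
      have h4 : ∏ _j : Fin k, Zc c = Zc c ^ k := by simp
      rw [← h4]
      refine Finset.prod_le_prod (fun _ _ => norm_nonneg _) fun j _ => ?_
      have h5 : c < (z j.succ).re := hz j.succ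
      rw [Lx_eq hd1 hd2 (by linarith), Lchi]
      exact (norm_LSeries_le (fun n => norm_kron_le d n) (by linarith)).trans (Zc_mono hc h5.le)
    calc ‖((kron d M : ℤ) : ℂ)‖ * ‖(d : ℂ) ^ (-(z 0))‖ * ∏ j : Fin k, ‖Lx d (z j.succ)‖
        ≤ 1 * (d : ℝ) ^ (-c) * Zc c ^ k := by
          refine mul_le_mul (mul_le_mul h1 h2 (norm_nonneg _) zero_le_one) h3 ?_ (by positivity)
          exact Finset.prod_nonneg fun _ _ => norm_nonneg _
      _ = _ := by ring
  · rw [norm_zero]
    positivity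

lemma fund_one : FundDisc 1 := Or.inl ⟨rfl, squarefree_one⟩

/-- in the region of absolute convergence -/
lemma F_eq {k M : ℕ} {z : Fin (k + 1) → ℂ} (hz : z ∈ tube (orth (k + 1))) : F k M z = S k M z * P k z := by
  classical
  unfold F P
  congr 1
  have hre : ∀ i, 1 < (z i).re := hz
  have h1 := summable_coef k M hz
  have h2 : A k M z = ∑' d : ℕ, ({d : ℕ | FundDisc d}.indicator (fun d : ℕ => (kron d M : ℂ) * (d : ℂ) ^ (-(z 0)) *
      ∏ j : Fin k, Lchi d (z j.succ))) d := by
    unfold A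
    exact tsum_subtype {d : ℕ | FundDisc d} (fun d : ℕ => (kron d M : ℂ) * (d : ℂ) ^ (-(z 0)) *
      ∏ j : Fin k, Lchi d (z j.succ))
  have h3 : Summable ({d : ℕ | FundDisc d}.indicator (fun d : ℕ => (kron d M : ℂ) * (d : ℂ) ^ (-(z 0)) *
      ∏ j : Fin k, Lchi d (z j.succ))) := summable_subtype_iff_indicator.1 h1
  rw [h2, h3.tsum_eq_add_tsum_ite 1]
  have h4 : {d : ℕ | FundDisc d}.indicator (fun d : ℕ => (kron d M : ℂ) * (d : ℂ) ^ (-(z 0)) *
      ∏ j : Fin k, Lchi d (z j.succ)) 1 = ∏ j : Fin k, riemannZeta (z j.succ) := by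
    rw [indicator_of_mem (show (1 : ℕ) ∈ {d : ℕ | FundDisc d} from fund_one), kron_one_left]
    push_cast
    rw [Complex.one_cpow, one_mul, one_mul]
    refine Finset.prod_congr rfl fun j _ => ?_
    rw [Lchi, ← LSeries_one_eq_riemannZeta (hre j.succ)]
    refine LSeries_congr (fun {n} _ => ?_) _
    rw [kron_one_left]
    simp
  rw [h4, add_sub_cancel_left]
  unfold S
  refine tsum_congr fun d => ?_
  unfold tm
  by_cases hd1 : d = 1
  · subst hd1
    simp
  · rw [if_neg hd1]
    by_cases hd : FundDisc d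
    · have hd2 : 1 < d := by
        have := fund_pos hd
        omega
      rw [indicator_of_mem (show d ∈ {d : ℕ | FundDisc d} from hd), if_pos ⟨hd, hd2⟩]
      congr 1
      refine Finset.prod_congr rfl fun j _ => ?_
      rw [Lx_eq hd hd2 (hre j.succ)]
    · rw [indicator_of_notMem (show d ∉ {d : ℕ | FundDisc d} from hd), if_neg (fun h => hd h.1)]

lemma P_diff (k : ℕ) : Differentiable ℂ (P k) := by
  intro z
  unfold P
  exact (HasFDerivAt.finsetProd (g := fun (J : Finset (Fin k)) (z : Fin (k + 1) → ℂ) => sigma J z - 1)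
    (fun J _ => ((differentiable_sigma J).sub_const 1 z).hasFDerivAt)).differentiableAt

/-- growth of the polar factor over compact sets -/
lemma P_bound (k : ℕ) {K : Set (Fin (k + 1) → ℝ)} (hK : IsCompact K) : ∃ (C : ℝ) (N : ℕ), 0 ≤ C ∧
    ∀ z : Fin (k + 1) → ℂ, (fun i => (z i).re) ∈ K → ‖P k z‖ ≤ C * im1 z ^ N := by
  obtain ⟨R, hR⟩ := hK.isBounded.exists_norm_le
  set R' : ℝ := |R| with hR'
  set B : ℝ := (1 + R') * (1 + k) + k + 1 with hB
  have hB0 : 0 ≤ B := by positivity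
  refine ⟨B ^ Fintype.card (Finset (Fin k)), Fintype.card (Finset (Fin k)), by positivity, fun z hz => ?_⟩
  have hn : ∀ i, ‖z i‖ ≤ (1 + R') * im1 z := by
    intro i
    have h1 := Complex.norm_le_abs_re_add_abs_im (z i)
    have h2 : |(z i).re| ≤ R' := by
      have h3 := norm_le_pi_norm (fun i => (z i).re) i
      rw [Real.norm_eq_abs] at h3
      exact (h3.trans (hR _ hz)).trans (le_abs_self R)
    have h3 := im1_le z i
    have h4 := im1_ge z
    have h5 : 0 ≤ R' := abs_nonneg R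
    nlinarith
  unfold P
  rw [norm_prod, ← mul_pow]
  have h6 : ∏ _J : Finset (Fin k), (B * im1 z) = (B * im1 z) ^ Fintype.card (Finset (Fin k)) := by simp
  rw [← h6]
  refine Finset.prod_le_prod (fun _ _ => norm_nonneg _) fun J _ => ?_
  have h4 := im1_ge z
  have h5 : 0 ≤ R' := abs_nonneg R
  have hcard : (J.card : ℝ) ≤ k := by
    have := Finset.card_le_univ J
    simp only [Fintype.card_fin] at this
    exact_mod_cast this
  unfold sigma
  have h7 : ‖∑ j ∈ J, z j.succ‖ ≤ k * ((1 + R') * im1 z) := by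
    refine (norm_sum_le _ _).trans ?_
    refine (Finset.sum_le_sum fun j _ => hn j.succ).trans ?_
    rw [Finset.sum_const, nsmul_eq_mul]
    exact mul_le_mul_of_nonneg_right hcard (by positivity)
  have h8 : ‖z 0 - (J.card : ℂ) / 2 + ∑ j ∈ J, z j.succ - 1‖ ≤ ‖z 0‖ + k + k * ((1 + R') * im1 z) + 1 := by
    refine (norm_sub_le _ _).trans ?_
    rw [norm_one]
    have h9 : ‖z 0 - (J.card : ℂ) / 2‖ ≤ ‖z 0‖ + k := by
      refine (norm_sub_le _ _).trans ?_
      have h10 : ‖(J.card : ℂ) / 2‖ ≤ k := by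
        rw [norm_div, Complex.norm_natCast]
        simp only [Complex.norm_ofNat]
        have : (0 : ℝ) ≤ J.card := Nat.cast_nonneg _
        linarith
      linarith
    have h11 := norm_add_le (z 0 - (J.card : ℂ) / 2) (∑ j ∈ J, z j.succ)
    linarith
  refine h8.trans ?_
  have h12 := hn 0
  have hk0 : (0 : ℝ) ≤ k := Nat.cast_nonneg k
  rw [hB]
  nlinarith [mul_nonneg hk0 (by linarith : (0 : ℝ) ≤ im1 z - 1)]

/-- the continuation to the union of the region and the orthant -/
theorem tempered_SP {k M : ℕ} {δ b B : ℝ} {N : ℕ} (hB : 0 ≤ B) (h : HB δ b B N) {w : ℝ} (hw : 1 + k * b < w) :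
    Tempered (Om k w δ) (fun z => S k M z * P k z) ∧ Tempered (orth (k + 1)) (fun z => S k M z * P k z) := by
  have h1 := S_of_bound (M := M) (isOpen_Om k w δ) (r := w - k * b) (C := B ^ k) (N := N * k) (by linarith) (by positivity)
    (fun z hz d => tm_bound_Om hB h hz d)
  obtain ⟨h2, -, C', hC', h3⟩ := h1
  constructor
  · refine ⟨h2.mul (P_diff k).differentiableOn, fun K hK hc => ?_⟩
    obtain ⟨C'', N'', hC'', h4⟩ := P_bound k hc
    refine ⟨C' * C'', N * k + N'', fun z hz => ?_⟩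
    have h5 := h3 z (hK hz)
    have h6 := h4 z hz
    rw [norm_mul]
    calc ‖S k M z‖ * ‖P k z‖ ≤ (C' * im1 z ^ (N * k)) * (C'' * im1 z ^ N'') :=
          mul_le_mul h5 h6 (norm_nonneg _) ((norm_nonneg _).trans h5)
      _ = C' * C'' * im1 z ^ (N * k + N'') := by rw [pow_add]; ring
  · have horc : ∀ c : ℝ, 1 < c → DifferentiableOn ℂ (S k M) (tube (orc (k + 1) c)) ∧
        ∃ C' : ℝ, 0 ≤ C' ∧ ∀ z ∈ tube (orc (k + 1) c), ‖S k M z‖ ≤ C' * im1 z ^ 0 := by
      intro c hc
      have := S_of_bound (M := M) (isOpen_orc (k + 1) c) hc (C := Zc c ^ k) (N := 0)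
        (pow_nonneg (Zc_nonneg c) k) (fun z hz d => tm_bound_orc hc hz d)
      exact ⟨this.1, this.2.2⟩
    constructor
    · intro z hz
      have hz' : ∀ i, 1 < (z i).re := hz
      obtain ⟨c, hc1, hc2⟩ : ∃ c : ℝ, 1 < c ∧ ∀ i, c < (z i).re := by
        obtain ⟨i0, -, hi0⟩ := Finset.exists_min_image Finset.univ (fun i => (z i).re) ⟨0, Finset.mem_univ _⟩
        refine ⟨(1 + (z i0).re) / 2, by linarith [hz' i0], fun i => ?_⟩
        have := hi0 i (Finset.mem_univ i)
        linarith [hz' i0]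
      have h5 : DifferentiableAt ℂ (S k M) z :=
        (horc c hc1).1.differentiableAt ((isOpen_tube (isOpen_orc _ c)).mem_nhds hc2)
      exact (h5.mul (P_diff k z)).differentiableWithinAt
    · intro K hK hc
      obtain ⟨c, hc1, hc2⟩ : ∃ c : ℝ, 1 < c ∧ K ⊆ orc (k + 1) c := by
        rcases K.eq_empty_or_nonempty with rfl | hne
        · exact ⟨2, by norm_num, empty_subset _⟩
        · have h6 : ∀ i : Fin (k + 1), ∃ c : ℝ, 1 < c ∧ ∀ x ∈ K, c < x i := by
            intro i
            obtain ⟨x0, hx0, hmin⟩ := hc.exists_isMinOn hne (continuous_apply i).continuousOn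
            refine ⟨(1 + x0 i) / 2, by linarith [hK hx0 i], fun x hx => ?_⟩
            have : x0 i ≤ x i := hmin hx
            linarith [hK hx0 i]
          choose c hc1 hc2 using h6
          obtain ⟨i0, -, hi0⟩ := Finset.exists_min_image Finset.univ c ⟨0, Finset.mem_univ _⟩
          exact ⟨c i0, hc1 i0, fun x hx i => lt_of_le_of_lt (hi0 i (Finset.mem_univ i)) (hc2 i x hx)⟩
      obtain ⟨C1, hC1, h7⟩ := (horc c hc1).2
      obtain ⟨C'', N'', hC'', h4⟩ := P_bound k hc
      refine ⟨C1 * C'', N'', fun z hz => ?_⟩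
      have h5 := h7 z (hc2 hz)
      have h6 := h4 z hz
      rw [pow_zero, mul_one] at h5
      rw [norm_mul]
      calc ‖S k M z‖ * ‖P k z‖ ≤ C1 * (C'' * im1 z ^ N'') :=
            mul_le_mul h5 h6 (norm_nonneg _) hC1
        _ = C1 * C'' * im1 z ^ N'' := by ring

/-- the point with `w` and `s_j = 1/2` -/
noncomputable def half (k : ℕ) (w : ℝ) : Fin (k + 1) → ℝ := Fin.cons w (fun _ => 1 / 2)

/-- **bounds give the continuation** -/
theorem continuesTo_of_HB {k M : ℕ} {δ b B : ℝ} {N : ℕ} (hδ : 0 < δ) (hB : 0 ≤ B) (h : HB δ b B N) {w : ℝ}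
    (hw : 1 + k * b < w) : ContinuesTo k M (half k w) := by
  set w' : ℝ := (w + (1 + k * b)) / 2 with hw'
  obtain ⟨h1, h2⟩ := tempered_SP (M := M) hB h (show 1 + k * b < w' by rw [hw']; linarith)
  obtain ⟨G, hG, e1, e2⟩ := tempered_glue (isOpen_Om k w' δ) (isOpen_orth (k + 1)) h1 h2 (fun _ _ => rfl)
  refine ⟨Om k w' δ ∪ orth (k + 1), (isOpen_Om k w' δ).union (isOpen_orth _), ⟨⟨fun _ => 2, Or.inr fun _ => by norm_num⟩, ?_⟩,
    subset_union_right, Or.inl ⟨?_, fun j => ?_⟩, G, hG, fun z hz => ?_⟩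
  · have hx1 : (fun _ => max w' 1 + 1 : Fin (k + 1) → ℝ) ∈ Om k w' δ := by
      refine ⟨?_, fun j => ?_⟩
      · have := le_max_left w' 1
        show w' < max w' 1 + 1
        linarith
      · have := le_max_right w' 1
        show 1 / 2 - δ < max w' 1 + 1
        linarith
    have hx2 : (fun _ => max w' 1 + 1 : Fin (k + 1) → ℝ) ∈ orth (k + 1) := by
      intro i
      have := le_max_right w' 1
      show 1 < max w' 1 + 1
      linarith
    exact IsPreconnected.union _ hx1 hx2 (convex_Om k w' δ).isPreconnected (convex_orth _).isPreconnected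
  · show w' < half k w 0
    simp only [half, Fin.cons_zero]
    rw [hw']; linarith
  · show 1 / 2 - δ < half k w j.succ
    simp only [half, Fin.cons_succ]
    linarith
  · rw [e2 hz, F_eq hz]

end Pool.Agent.L5helper5.LE
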