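import Mathlib
import Pool.Agent.L5helper5.LE.Series

/-!
# The continuation gives bounds
-/

set_option autoImplicit false

namespace Pool.Agent.L5helper5.LE

open Complex Filter Topology MeasureTheory Set
open Pool.Agent.Q48.MDS
open scoped ComplexOrder

lemma crude : ∃ B : ℝ, 0 ≤ B ∧ HB (1 / 4) 1 B 1 := by
  obtain ⟨C, hC, h⟩ := Lx_bound
  have hZ := Zc_nonneg 2
  refine ⟨2 * C + Zc 2, by positivity, fun d hd h1 s hs => ?_⟩
  have hd1 : (1 : ℝ) ≤ d := by exact_mod_cast h1.le
  rw [Real.rpow_one, pow_one]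
  have him := abs_nonneg s.im
  rcases le_total s.re 2 with h2 | h2
  · have h3 := h d hd h1 s (by linarith)
    have h4 := Complex.norm_le_abs_re_add_abs_im s
    rw [abs_of_nonneg (by linarith : 0 ≤ s.re)] at h4
    have h5 : ‖s‖ ≤ 2 * (1 + |s.im|) := by linarith
    calc ‖Lx d s‖ ≤ C * d * ‖s‖ := h3
      _ ≤ C * d * (2 * (1 + |s.im|)) := mul_le_mul_of_nonneg_left h5 (by positivity)
      _ = 2 * C * d * (1 + |s.im|) := by ring
      _ ≤ (2 * C + Zc 2) * d * (1 + |s.im|) := by
          refine mul_le_mul_of_nonneg_right (mul_le_mul_of_nonneg_right ?_ (by linarith)) (by linarith)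
          linarith
  · refine (Lx_le_two hd h1 h2).trans ?_
    calc Zc 2 = Zc 2 * 1 * 1 := by ring
      _ ≤ (2 * C + Zc 2) * d * (1 + |s.im|) := by
          refine mul_le_mul (mul_le_mul ?_ hd1 zero_le_one (by positivity)) ?_ zero_le_one (by positivity)
          · linarith
          · linarith

lemma kron_one_right (d : ℕ) : kron d 1 = 1 := by
  unfold kron
  simp

/-- the arguments -/
noncomputable def st (m : ℕ) (t : ℝ) (j : Fin (2 * m)) : ℂ := if (j : ℕ) < m then 1 / 2 + I * t else 1 / 2 - I * t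

/-- the point -/
noncomputable def zt (m : ℕ) (t : ℝ) (w : ℂ) : Fin (2 * m + 1) → ℂ := Fin.cons w (st m t)

lemma st_re (m : ℕ) (t : ℝ) (j : Fin (2 * m)) : (st m t j).re = 1 / 2 := by
  unfold st
  split_ifs <;> simp

lemma st_im (m : ℕ) (t : ℝ) (j : Fin (2 * m)) : |(st m t j).im| = |t| := by
  unfold st
  split_ifs <;> simp

lemma zt_re (m : ℕ) (t : ℝ) (w : ℂ) : (fun i => (zt m t w i).re) = half (2 * m) w.re := by
  funext i
  refine Fin.cases ?_ (fun j => ?_) i
  · simp [zt, half]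
  · simp only [zt, half, Fin.cons_succ]
    exact st_re m t j

lemma zt_im1 (m : ℕ) (t : ℝ) (w : ℝ) : im1 (zt m t w) ≤ 1 + |t| := by
  unfold im1
  have : ‖fun i => (zt m t (w : ℂ) i).im‖ ≤ |t| := by
    rw [pi_norm_le_iff_of_nonneg (abs_nonneg t)]
    intro i
    refine Fin.cases ?_ (fun j => ?_) i
    · simp [zt]
    · simp only [zt, Fin.cons_succ, Real.norm_eq_abs]
      exact (st_im m t j).le
  linarith

lemma zt_diff (m : ℕ) (t : ℝ) : Differentiable ℂ (zt m t) := by
  refine differentiable_pi.2 fun i => ?_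
  refine Fin.cases ?_ (fun j => ?_) i
  · simp only [zt, Fin.cons_zero]
    exact differentiable_id
  · simp only [zt, Fin.cons_succ]
    exact differentiable_const _

lemma sigma_zt (m : ℕ) (t : ℝ) (w : ℂ) (J : Finset (Fin (2 * m))) : (sigma J (zt m t w) - 1).re = w.re - 1 := by
  rw [Complex.sub_re, sigma_re, zt_re]
  unfold rsig
  simp only [half, Fin.cons_zero, Fin.cons_succ, Finset.sum_const, nsmul_eq_mul, Complex.one_re]
  ring

lemma P_zt (m : ℕ) (t : ℝ) {w : ℂ} (hw : 1 < w.re) :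
    (w.re - 1) ^ Fintype.card (Finset (Fin (2 * m))) ≤ ‖P (2 * m) (zt m t w)‖ := by
  unfold P
  rw [norm_prod]
  have h1 : ∏ _J : Finset (Fin (2 * m)), (w.re - 1) = (w.re - 1) ^ Fintype.card (Finset (Fin (2 * m))) := by simp
  rw [← h1]
  refine Finset.prod_le_prod (fun _ _ => by linarith) fun J _ => ?_
  rw [← sigma_zt m t w J]
  exact Complex.re_le_norm _

/-- the nonnegative coefficients -/
noncomputable def cf (m : ℕ) (t : ℝ) (d : ℕ) : ℝ := ‖Lx d (1 / 2 + I * t)‖ ^ (2 * m)

lemma prod_st {m : ℕ} (t : ℝ) {d : ℕ} (hd : FundDisc d) (h1 : 1 < d) :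
    ∏ j : Fin (2 * m), Lx d (st m t j) = (cf m t d : ℂ) := by
  have h2 : ∏ j : Fin (2 * m), Lx d (st m t j) =
      ∏ j ∈ Finset.range (2 * m), (if j < m then Lx d (1 / 2 + I * t) else Lx d (1 / 2 - I * t)) := by
    rw [← Fin.prod_univ_eq_prod_range (fun j => if j < m then Lx d (1 / 2 + I * t) else Lx d (1 / 2 - I * t))]
    refine Finset.prod_congr rfl fun j _ => ?_
    unfold st
    split_ifs <;> rfl
  have h3 : Lx d (1 / 2 - I * t) = (starRingEnd ℂ) (Lx d (1 / 2 + I * t)) := by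
    rw [← Lx_conj hd h1 (by simp)]
    congr 1
    apply Complex.ext <;> simp
  rw [h2, two_mul, Finset.prod_range_add]
  have h4 : ∏ x ∈ Finset.range m, (if x < m then Lx d (1 / 2 + I * t) else Lx d (1 / 2 - I * t)) =
      Lx d (1 / 2 + I * t) ^ m := by
    rw [Finset.prod_congr rfl fun x hx => if_pos (Finset.mem_range.1 hx)]
    simp
  have h5 : ∏ x ∈ Finset.range m, (if m + x < m then Lx d (1 / 2 + I * t) else Lx d (1 / 2 - I * t)) =
      Lx d (1 / 2 - I * t) ^ m := by
    rw [Finset.prod_congr rfl fun x hx => if_neg (by omega)]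
    simp
  rw [h4, h5, h3, ← mul_pow, Complex.mul_conj, cf, pow_mul, ← Complex.ofReal_pow, Complex.normSq_eq_norm_sq]

open Classical in
/-- the coefficients of the Dirichlet series in `w` -/
noncomputable def co (m : ℕ) (t : ℝ) (d : ℕ) : ℂ := if FundDisc d ∧ 1 < d then (cf m t d : ℂ) else 0

lemma tm_zt (m : ℕ) (t : ℝ) (w : ℂ) (d : ℕ) : tm (2 * m) 1 d (zt m t w) = LSeries.term (co m t) w d := by
  unfold tm co
  by_cases h : FundDisc d ∧ 1 < d
  · rw [if_pos h, LSeries.term_of_ne_zero (by omega), if_pos h, kron_one_right]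
    have h2 : ∏ j : Fin (2 * m), Lx d (zt m t w j.succ) = (cf m t d : ℂ) := by
      rw [← prod_st t h.1 h.2]
      refine Finset.prod_congr rfl fun j _ => ?_
      simp only [zt, Fin.cons_succ]
    rw [h2]
    have h3 : zt m t w 0 = w := by simp [zt]
    rw [h3, Complex.cpow_neg]
    push_cast
    ring
  · rw [if_neg h]
    by_cases hd : d = 0
    · subst hd
      rw [LSeries.term_zero]
    · rw [LSeries.term_of_ne_zero hd, if_neg h, zero_div]

/-- **the continuation gives the bound** -/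
theorem bound_of_continuesTo {m : ℕ} (hm : 1 ≤ m) {w0 : ℝ} (h : ContinuesTo (2 * m) 1 (half (2 * m) w0)) {a : ℝ}
    (ha : max w0 1 < 2 * m * a) : LBx a := by
  obtain ⟨Ω, hΩo, hΩc, hsub, hp, G₀, hG₀, hGeq⟩ := h
  obtain ⟨G, hG, hGG⟩ := bochner hΩo hΩc hG₀
  set W := convexHull ℝ Ω with hW
  have hWo : IsOpen W := hΩo.convexHull
  have hWc : Convex ℝ W := convex_convexHull ℝ Ω
  have hΩW : Ω ⊆ W := subset_convexHull ℝ Ω
  have hoW : orth (2 * m + 1) ⊆ W := hsub.trans hΩW
  obtain ⟨B, hB0, hB⟩ := crude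
  set w1 : ℝ := (2 * m : ℕ) + 2 with hw1
  have hw1' : 1 + ((2 * m : ℕ) : ℝ) * 1 < w1 := by rw [hw1]; linarith
  obtain ⟨hSP, -⟩ := tempered_SP (k := 2 * m) (M := 1) hB0 hB hw1'
  have hSsum := S_of_bound (k := 2 * m) (M := 1) (isOpen_Om (2 * m) w1 (1 / 4)) (r := w1 - (2 * m : ℕ) * 1)
    (C := B ^ (2 * m)) (N := 1 * (2 * m)) (by linarith) (by positivity) (fun z hz d => tm_bound_Om hB0 hB hz d)
  -- equality of the two expressions
  have heq : EqOn G (fun z => S (2 * m) 1 z * P (2 * m) z) (tube (W ∩ Om (2 * m) w1 (1 / 4))) := by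
    refine eqOn_tube (Ω := orth (2 * m + 1) ∩ Om (2 * m) w1 (1 / 4)) ((isOpen_orth _).inter (isOpen_Om _ _ _))
      ⟨fun _ => w1 + 2, ?_, ?_⟩ (hWo.inter (isOpen_Om _ _ _)) (hWc.inter (convex_Om _ _ _))
      (inter_subset_inter_left _ hoW) (hG.1.mono fun z hz => hz.1) (hSP.1.mono fun z hz => hz.2) ?_
    · intro i
      show 1 < w1 + 2
      have : (0 : ℝ) ≤ ((2 * m : ℕ) : ℝ) := Nat.cast_nonneg _
      rw [hw1]; linarith
    · refine ⟨?_, fun j => ?_⟩
      · show w1 < w1 + 2
        linarith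
      · show 1 / 2 - 1 / 4 < w1 + 2
        have : (0 : ℝ) ≤ ((2 * m : ℕ) : ℝ) := Nat.cast_nonneg _
        rw [hw1]; linarith
    · intro z hz
      rw [hGG (hsub hz.1), hGeq hz.1, F_eq hz.1]
  -- the points over the half line
  have hmem : ∀ x : ℝ, w0 ≤ x → half (2 * m) x ∈ W := by
    intro x hx
    refine mem_of_ge hWo hWc hoW (hΩW hp) fun i => ?_
    refine Fin.cases ?_ (fun j => ?_) i
    · simpa [half] using hx
    · simp [half]
  set a0 : ℝ := 2 * m * a with ha0
  have ha1 : 1 < a0 := lt_of_le_of_lt (le_max_right _ _) ha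
  have haw : w0 < a0 := lt_of_le_of_lt (le_max_left _ _) ha
  set q := Fintype.card (Finset (Fin (2 * m))) with hq
  -- the bound for `G`
  obtain ⟨C, N, hC⟩ := hG.2 {half (2 * m) a0} (singleton_subset_iff.2 (hmem a0 haw.le)) isCompact_singleton
  set C3 : ℝ := max (|C| / (a0 - 1) ^ q) 1 with hC3
  have hC31 : 1 ≤ C3 := le_max_right _ _
  refine ⟨C3, N, fun d0 hd0 h1d t => ?_⟩
  have hd0r : (1 : ℝ) ≤ d0 := by exact_mod_cast h1d.le
  have hd00 : (0 : ℝ) < d0 := by linarith
  set f : ℂ → ℂ := fun w => G (zt m t w) / P (2 * m) (zt m t w) with hf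
  have hfd : DifferentiableOn ℂ f {w | max w0 1 < w.re} := by
    refine DifferentiableOn.div ?_ ?_ ?_
    · refine hG.1.comp (zt_diff m t).differentiableOn fun w hw => ?_
      show (fun i => (zt m t w i).re) ∈ W
      rw [zt_re]
      exact hmem _ ((le_max_left _ _).trans (le_of_lt hw))
    · exact ((P_diff _).comp (zt_diff m t)).differentiableOn
    · intro w hw h0
      have hw' : 1 < w.re := lt_of_le_of_lt (le_max_right _ _) hw
      have h2 := P_zt m t hw'
      rw [h0, norm_zero] at h2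
      have : 0 < (w.re - 1) ^ Fintype.card (Finset (Fin (2 * m))) := pow_pos (by linarith) _
      linarith
  have hOm : ∀ w : ℂ, w1 < w.re → zt m t w ∈ tube (Om (2 * m) w1 (1 / 4)) := by
    intro w hw
    show (fun i => (zt m t w i).re) ∈ Om (2 * m) w1 (1 / 4)
    rw [zt_re]
    refine ⟨by simpa [half] using hw, fun j => ?_⟩
    simp only [half, Fin.cons_succ]
    norm_num
  have hsumm : ∀ w : ℂ, w1 < w.re → LSeriesSummable (co m t) w := by
    intro w hw
    have h2 := hSsum.2.1 (zt m t w) (hOm w hw)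
    refine h2.congr fun d => ?_
    rw [tm_zt]
  have hfL : ∀ w : ℂ, max (max w0 1) w1 < w.re → f w = LSeries (co m t) w := by
    intro w hw
    have hw1' : w1 < w.re := lt_of_le_of_lt (le_max_right _ _) hw
    have hw0' : w0 < w.re := lt_of_le_of_lt ((le_max_left _ _).trans (le_max_left _ _)) hw
    have hw1'' : 1 < w.re := lt_of_le_of_lt ((le_max_right _ _).trans (le_max_left _ _)) hw
    have hz : zt m t w ∈ tube (W ∩ Om (2 * m) w1 (1 / 4)) := by
      refine ⟨?_, hOm w hw1'⟩
      show (fun i => (zt m t w i).re) ∈ W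
      rw [zt_re]
      exact hmem _ hw0'.le
    have h2 := heq hz
    have hP : P (2 * m) (zt m t w) ≠ 0 := by
      intro h0
      have h3 := P_zt m t hw1''
      rw [h0, norm_zero] at h3
      have : 0 < (w.re - 1) ^ Fintype.card (Finset (Fin (2 * m))) := pow_pos (by linarith) _
      linarith
    rw [hf]
    simp only
    rw [h2]
    simp only
    rw [mul_div_assoc, div_self hP, mul_one]
    unfold S LSeries
    exact tsum_congr fun d => tm_zt m t w d
  -- remove one term
  set c0 : ℝ := cf m t d0 with hc0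
  have hc0' : 0 ≤ c0 := by rw [hc0]; unfold cf; positivity
  set co' : ℕ → ℂ := fun d => if d = d0 then 0 else co m t d with hco'
  have hco'0 : 0 ≤ co' := by
    intro d
    rw [hco']
    simp only [Pi.zero_apply]
    split_ifs
    · exact le_rfl
    · unfold co
      split_ifs
      · have : (0 : ℝ) ≤ cf m t d := by unfold cf; positivity
        exact_mod_cast this
      · exact le_rfl
  have hterm' : ∀ (w : ℂ) (d : ℕ), LSeries.term co' w d = if d = d0 then 0 else LSeries.term (co m t) w d := by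
    intro w d
    by_cases hd : d = 0
    · subst hd
      rw [LSeries.term_zero, LSeries.term_zero]
      simp
    · rw [LSeries.term_of_ne_zero hd, LSeries.term_of_ne_zero hd, hco']
      simp only
      split_ifs <;> simp
  have hsumm' : ∀ w : ℂ, w1 < w.re → LSeriesSummable co' w := by
    intro w hw
    have h2 := hsumm w hw
    refine Summable.of_norm_bounded h2.norm fun d => ?_
    rw [hterm']
    split_ifs
    · rw [norm_zero]; exact norm_nonneg _
    · exact le_rfl
  have hLs : ∀ w : ℂ, w1 < w.re → LSeries (co m t) w = (c0 : ℂ) * (d0 : ℂ) ^ (-w) + LSeries co' w := by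
    intro w hw
    unfold LSeries
    rw [(hsumm w hw).tsum_eq_add_tsum_ite d0]
    congr 1
    · rw [LSeries.term_of_ne_zero (by omega), co, if_pos ⟨hd0, h1d⟩, Complex.cpow_neg, hc0]
      rw [div_eq_mul_inv]
    · refine tsum_congr fun d => ?_
      rw [hterm']
  set g : ℂ → ℂ := fun w => f w - (c0 : ℂ) * (d0 : ℂ) ^ (-w) with hg
  set H : Set ℂ := {w | max w0 1 < w.re} with hH
  have hgd : DifferentiableOn ℂ g H := by
    refine hfd.sub ?_
    refine Differentiable.differentiableOn ?_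
    have hdne : (d0 : ℂ) ≠ 0 := by exact_mod_cast (by omega : d0 ≠ 0)
    exact (differentiable_neg.const_cpow (Or.inl hdne)).const_mul _
  set c : ℝ := max (max a0 w1) (max w0 1) + 1 with hc
  have hc1 : a0 < c := by
    have := le_max_left (max a0 w1) (max w0 1)
    have := le_max_left a0 w1
    rw [hc]; linarith
  have hc2 : w1 < c := by
    have := le_max_left (max a0 w1) (max w0 1)
    have := le_max_right a0 w1
    rw [hc]; linarith
  have hc3 : max w0 1 < c := by
    have := le_max_right (max a0 w1) (max w0 1)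
    rw [hc]; linarith
  have hgL : g =ᶠ[𝓝 (c : ℂ)] LSeries co' := by
    have h2 : {w : ℂ | max (max w0 1) w1 < w.re} ∈ 𝓝 (c : ℂ) :=
      (isOpen_lt continuous_const continuous_re).mem_nhds (by
        show max (max w0 1) w1 < (c : ℂ).re
        rw [Complex.ofReal_re]
        exact max_lt hc3 hc2)
    filter_upwards [h2] with w hw
    rw [hg]
    simp only
    rw [hfL w hw, hLs w (lt_of_le_of_lt (le_max_right _ _) hw), add_sub_cancel_left]
  have habs : LSeries.abscissaOfAbsConv co' < c := by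
    have h2 := (hsumm' (((w1 + c) / 2 : ℝ) : ℂ) (by rw [Complex.ofReal_re]; linarith)).abscissaOfAbsConv_le
    refine lt_of_le_of_lt h2 ?_
    rw [Complex.ofReal_re]
    exact_mod_cast (by linarith : (w1 + c) / 2 < c)
  have halt : ∀ n : ℕ, 0 ≤ (-1 : ℂ) ^ n * iteratedDeriv n g c := by
    intro n
    have h2 := LSeries.iteratedDeriv_alternating hco'0 habs n
    rw [hgL.iteratedDeriv_eq n]
    exact h2
  -- Landau's argument
  have hpos : 0 ≤ g a0 := by
    have h2 : DifferentiableOn ℂ (fun z => g (-z)) (Metric.ball (-(c : ℂ)) (c - max w0 1)) := by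
      refine hgd.comp differentiable_neg.differentiableOn fun z hz => ?_
      rw [Metric.mem_ball, dist_eq_norm] at hz
      show max w0 1 < (-z).re
      have h3 := Complex.abs_re_le_norm (z - -(c : ℂ))
      rw [Complex.sub_re, Complex.neg_re, Complex.ofReal_re] at h3
      have h4 := (abs_le.1 h3).2
      rw [Complex.neg_re]
      linarith
    have h3 := h2.nonneg_of_iteratedDeriv_nonneg (fun n => ?_) (z := -(a0 : ℂ)) ?_ ?_
    · simpa using h3
    · have h4 := iteratedDeriv_comp_neg n g (-(c : ℂ))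
      rw [h4, neg_neg]
      have h5 := halt n
      simpa [smul_eq_mul] using h5
    · rw [neg_le_neg_iff]
      exact_mod_cast hc1.le
    · rw [Metric.mem_ball, dist_eq_norm]
      have h4 : -(a0 : ℂ) - -(c : ℂ) = ((c - a0 : ℝ) : ℂ) := by push_cast; ring
      rw [h4, Complex.norm_real, Real.norm_eq_abs, abs_of_nonneg (by linarith)]
      linarith
  have hre : c0 * (d0 : ℝ) ^ (-a0) ≤ ‖f a0‖ := by
    have h2 : 0 ≤ (g a0).re := (Complex.nonneg_iff.1 hpos).1
    rw [hg] at h2
    simp only at h2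
    have h3 : (c0 : ℂ) * (d0 : ℂ) ^ (-(a0 : ℂ)) = ((c0 * (d0 : ℝ) ^ (-a0) : ℝ) : ℂ) := by
      push_cast
      rw [Complex.ofReal_cpow hd00.le]
      push_cast
      rfl
    rw [h3, Complex.sub_re, Complex.ofReal_re] at h2
    exact (by linarith : c0 * (d0 : ℝ) ^ (-a0) ≤ (f a0).re).trans (Complex.re_le_norm _)
  have hfb : ‖f a0‖ ≤ C3 * (1 + |t|) ^ N := by
    rw [hf]
    simp only
    rw [norm_div]
    have h2 : ‖G (zt m t a0)‖ ≤ |C| * (1 + |t|) ^ N := by
      have h3 := hC (zt m t a0) (by rw [zt_re, Complex.ofReal_re]; rfl)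
      have h4 := zt_im1 m t a0
      unfold im1 at h4
      refine h3.trans ?_
      refine mul_le_mul (le_abs_self C) (pow_le_pow_left₀ (by positivity) h4 N) (by positivity) (abs_nonneg _)
    have h5 := P_zt m t (w := (a0 : ℂ)) (by rw [Complex.ofReal_re]; exact ha1)
    rw [Complex.ofReal_re] at h5
    have h6 : 0 < (a0 - 1) ^ q := pow_pos (by linarith) _
    calc ‖G (zt m t a0)‖ / ‖P (2 * m) (zt m t a0)‖ ≤ (|C| * (1 + |t|) ^ N) / (a0 - 1) ^ q :=
          div_le_div₀ (by positivity) h2 h6 h5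
      _ = |C| / (a0 - 1) ^ q * (1 + |t|) ^ N := by ring
      _ ≤ C3 * (1 + |t|) ^ N := mul_le_mul_of_nonneg_right (le_max_left _ _) (by positivity)
  have hfin : c0 ≤ C3 * (1 + |t|) ^ N * (d0 : ℝ) ^ a0 := by
    have h2 := hre.trans hfb
    rw [Real.rpow_neg hd00.le, ← div_eq_mul_inv, div_le_iff₀ (by positivity)] at h2
    exact h2
  -- the root
  have ht1 : 1 ≤ 1 + |t| := by linarith [abs_nonneg t]
  have hy : ‖Lx d0 (1 / 2 + I * t)‖ ^ (2 * m) ≤ (C3 * (d0 : ℝ) ^ a * (1 + |t|) ^ N) ^ (2 * m) := by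
    have h2 : (d0 : ℝ) ^ a0 = ((d0 : ℝ) ^ a) ^ (2 * m) := by
      rw [← Real.rpow_natCast, ← Real.rpow_mul hd00.le, ha0]
      congr 1
      push_cast
      ring
    have h3 : c0 = ‖Lx d0 (1 / 2 + I * t)‖ ^ (2 * m) := rfl
    rw [← h3]
    refine hfin.trans ?_
    rw [h2, mul_pow, mul_pow]
    have h4 : C3 ≤ C3 ^ (2 * m) := le_self_pow₀ hC31 (by omega)
    have h5 : (1 + |t|) ^ N ≤ ((1 + |t|) ^ N) ^ (2 * m) := le_self_pow₀ (one_le_pow₀ ht1) (by omega)
    calc C3 * (1 + |t|) ^ N * ((d0 : ℝ) ^ a) ^ (2 * m)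
        ≤ C3 ^ (2 * m) * ((1 + |t|) ^ N) ^ (2 * m) * ((d0 : ℝ) ^ a) ^ (2 * m) := by
          refine mul_le_mul_of_nonneg_right ?_ (by positivity)
          exact mul_le_mul h4 h5 (by positivity) (by positivity)
      _ = _ := by ring
  have hC30 : 0 < C3 := by linarith
  exact (pow_le_pow_iff_left₀ (norm_nonneg _) (by positivity) (by omega)).1 hy

end Pool.Agent.L5helper5.LE
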