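import Mathlib
import Pool.Agent.L5helper5.LE.Landau

/-!
# The dictionary between the exponents
-/

set_option autoImplicit false

namespace Pool.Agent.L5helper5.LE

open Complex Filter Topology Set
open Pool.Agent.Q48.MDS

lemma LBx_mono {a a' : ℝ} (h : LBx a) (ha : a ≤ a') : LBx a' := by
  obtain ⟨C, N, hC⟩ := h
  refine ⟨|C|, N, fun d hd h1 t => (hC d hd h1 t).trans ?_⟩
  have hd1 : (1 : ℝ) ≤ d := by exact_mod_cast h1.le
  refine mul_le_mul_of_nonneg_right ?_ (by positivity)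
  exact mul_le_mul (le_abs_self C) (Real.rpow_le_rpow_of_exponent_le hd1 ha) (by positivity) (abs_nonneg _)

lemma LBx_one : LBx 1 := by
  obtain ⟨B, hB0, hB⟩ := crude
  refine ⟨B, 1, fun d hd h1 t => ?_⟩
  have h2 := hB d hd h1 (1 / 2 + I * t) (by simp)
  have h3 : (1 / 2 + I * (t : ℂ)).im = t := by simp
  rw [h3] at h2
  exact h2

/-- **bounds give the continuation** -/
theorem continuesTo_of_LBx {a : ℝ} (ha : 0 ≤ a) (h : LBx a) (k M : ℕ) {w : ℝ} (hw : 1 + k * a < w) :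
    ContinuesTo k M (half k w) := by
  set δ : ℝ := min (1 / 4) ((w - (1 + k * a)) / (8 * (k + 1))) with hδ
  have hk : (0 : ℝ) < 8 * ((k : ℝ) + 1) := by positivity
  have hδ0 : 0 < δ := lt_min (by norm_num) (div_pos (by linarith) hk)
  obtain ⟨C, N, hC, hb⟩ := half_bound ha h hδ0 (min_le_left _ _)
  refine continuesTo_of_HB hδ0 hC.le hb ?_
  have h1 : δ ≤ (w - (1 + k * a)) / (8 * (k + 1)) := min_le_right _ _
  rw [le_div_iff₀ hk] at h1
  have hk0 : (0 : ℝ) ≤ k := Nat.cast_nonneg k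
  nlinarith

lemma half_sn (k : ℕ) (w : ℝ) : sn (half k w) (1 / 2 : ℝ) = half (k + 1) w := by
  funext i
  refine Fin.cases ?_ (fun j => ?_) i
  · rw [sn_zero]; simp [half]
  · refine Fin.lastCases ?_ (fun l => ?_) j
    · rw [sn_succ_last]; simp [half]
    · rw [sn_succ]; simp [half]

lemma continuesTo_half_drop {k : ℕ} {w : ℝ} (h : ContinuesTo (k + 1) 1 (half (k + 1) w)) :
    ContinuesTo k 1 (half k w) := by
  rw [← half_sn] at h
  exact continuesTo_drop (m := 1) le_rfl le_rfl h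

lemma half_mono {k : ℕ} {w w' : ℝ} (h : w ≤ w') (i : Fin (k + 1)) : half k w i ≤ half k w' i := by
  refine Fin.cases ?_ (fun j => ?_) i
  · simpa [half] using h
  · simp [half]

/-- the abscissa of the continuation over the point `s = 1/2` -/
noncomputable def wk (k : ℕ) : ℝ := sInf {w : ℝ | 1 ≤ w ∧ ContinuesTo k 1 (half k w)}

/-- the exponent of the bounds on the critical line -/
noncomputable def th : ℝ := sInf {a : ℝ | 0 ≤ a ∧ LBx a}

lemma th_nonneg : 0 ≤ th := le_csInf ⟨1, zero_le_one, LBx_one⟩ fun _ h => h.1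

lemma th_le {a : ℝ} (ha : 0 ≤ a) (h : LBx a) : th ≤ a := csInf_le ⟨0, fun _ h => h.1⟩ ⟨ha, h⟩

lemma LBx_of_lt {a : ℝ} (h : th < a) : LBx a := by
  obtain ⟨b, ⟨-, hb⟩, hba⟩ := exists_lt_of_csInf_lt
    (s := {a : ℝ | 0 ≤ a ∧ LBx a}) ⟨1, zero_le_one, LBx_one⟩ h
  exact LBx_mono hb hba.le

lemma wk_set_nonempty (k : ℕ) : {w : ℝ | 1 ≤ w ∧ ContinuesTo k 1 (half k w)}.Nonempty := by
  refine ⟨1 + k * 1 + 1, ?_, continuesTo_of_LBx zero_le_one LBx_one k 1 (by linarith)⟩
  have : (0 : ℝ) ≤ k := Nat.cast_nonneg k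
  linarith

lemma one_le_wk (k : ℕ) : 1 ≤ wk k := le_csInf (wk_set_nonempty k) fun _ h => h.1

lemma wk_le {k : ℕ} {w : ℝ} (hw : 1 ≤ w) (h : ContinuesTo k 1 (half k w)) : wk k ≤ w :=
  csInf_le (s := {w : ℝ | 1 ≤ w ∧ ContinuesTo k 1 (half k w)}) ⟨1, fun _ h => h.1⟩ ⟨hw, h⟩

lemma continuesTo_of_wk {k : ℕ} {w : ℝ} (h : wk k < w) : ContinuesTo k 1 (half k w) := by
  obtain ⟨b, ⟨-, hb⟩, hba⟩ := exists_lt_of_csInf_lt (wk_set_nonempty k) h
  exact hb.up (half_mono hba.le)

/-- the upper bound -/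
theorem wk_upper (k : ℕ) : wk k ≤ 1 + k * th := by
  refine le_of_forall_pos_le_add fun ε hε => ?_
  set a : ℝ := th + ε / (2 * (k + 1)) with ha
  have hk : (0 : ℝ) < 2 * ((k : ℝ) + 1) := by positivity
  have hk0 : (0 : ℝ) ≤ k := Nat.cast_nonneg k
  have h1 : LBx a := LBx_of_lt (by rw [ha]; have := div_pos hε hk; linarith)
  have ha0 : 0 ≤ a := by rw [ha]; have := th_nonneg; positivity
  have hka : k * a < k * th + ε := by
    rw [ha, mul_add]
    have h2 : (k : ℝ) * (ε / (2 * (k + 1))) < ε := by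
      rw [mul_div_assoc', div_lt_iff₀ hk]
      nlinarith
    linarith
  refine wk_le ?_ (continuesTo_of_LBx ha0 h1 k 1 (w := 1 + k * th + ε) (by linarith))
  have := mul_nonneg hk0 th_nonneg
  linarith

/-- the lower bound for an even number of variables -/
theorem wk_lower_even (m : ℕ) : (2 * m : ℕ) * th ≤ wk (2 * m) := by
  rcases Nat.eq_zero_or_pos m with rfl | hm
  · have := one_le_wk (2 * 0)
    simp only [mul_zero, Nat.cast_zero, zero_mul] at this ⊢
    linarith
  refine le_csInf (wk_set_nonempty _) fun w hw => ?_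
  obtain ⟨hw1, hw2⟩ := hw
  have hmr : (0 : ℝ) < 2 * m := by have : (0 : ℝ) < m := by exact_mod_cast hm
                                   linarith
  have h1 : ∀ a : ℝ, w / (2 * m) < a → th ≤ a := by
    intro a ha
    have ha' : w < 2 * m * a := by
      rw [div_lt_iff₀ hmr] at ha
      linarith
    have ha0 : 0 ≤ a := le_of_lt (lt_of_le_of_lt (by positivity) ha)
    exact th_le ha0 (bound_of_continuesTo hm hw2 (by rw [max_eq_left hw1]; exact ha'))
  have h2 : th ≤ w / (2 * m) := le_of_forall_gt_imp_ge_of_dense fun a ha => h1 a ha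
  rw [le_div_iff₀ hmr] at h2
  push_cast
  linarith

lemma wk_mono (k : ℕ) : wk k ≤ wk (k + 1) :=
  le_csInf (wk_set_nonempty _) fun _ hw => wk_le hw.1 (continuesTo_half_drop hw.2)

/-- the lower bound -/
theorem wk_lower (k : ℕ) : ((k : ℝ) - 1) * th ≤ wk k := by
  rcases Nat.even_or_odd' k with ⟨m, rfl | rfl⟩
  · have h1 := wk_lower_even m
    have h2 := th_nonneg
    push_cast at h1 ⊢
    linarith
  · have h1 := wk_lower_even m
    have h2 := wk_mono (2 * m)
    push_cast at h1 ⊢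
    linarith

end Pool.Agent.L5helper5.LE
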