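import Mathlib
import Pool.Agent.L5helper5.LE.Dict

/-!
# The exponents above one quarter
-/

set_option autoImplicit false

namespace Pool.Agent.L5helper5.LE

open Complex Filter Topology MeasureTheory Set
open Pool.Agent.Q48.MDS

lemma Sd_le (d : ℕ) {t : ℝ} (ht : 1 < t) : ‖Sd d t‖ ≤ t := by
  unfold Sd
  refine (norm_sum_le _ _).trans ?_
  refine (Finset.sum_le_sum fun n _ => norm_kron_le d n).trans ?_
  rw [Finset.sum_const, nsmul_eq_mul, mul_one, Nat.card_Icc, Nat.add_sub_cancel]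
  exact Nat.floor_le (by linarith)

/-- the Pólya–Vinogradov bound -/
lemma sum_bound_PV : ∃ C : ℝ, 1 ≤ C ∧ ∀ d : ℕ, FundDisc d → 1 < d → ∀ t : ℝ, ‖Sd d t‖ ≤ C * √(d : ℝ) * Real.log d := by
  obtain ⟨C, hC, h⟩ := Pool.Agent.H38R2.CG.T_PV
  refine ⟨max C 1, le_max_right _ _, fun d hd h1 t => ?_⟩
  have h2 := h d (chr hd h1) h1 (chr_ne hd h1) 0 ⌊t⌋₊
  have h3 : ∑ n ∈ Finset.Ioc 0 ⌊t⌋₊, chr hd h1 (n : ZMod d) = Sd d t := by
    have h4 : Finset.Ioc 0 ⌊t⌋₊ = Finset.Icc 1 ⌊t⌋₊ := by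
      ext x; simp [Finset.mem_Icc, Finset.mem_Ioc, Nat.succ_le_iff]
    rw [h4]
    exact Finset.sum_congr rfl fun n hn => chr_apply hd h1 (Finset.mem_Icc.1 hn).1
  rw [h3] at h2
  refine h2.trans ?_
  have : 0 ≤ Real.log d := Real.log_nonneg (by exact_mod_cast h1.le)
  gcongr
  exact le_max_left _ _

theorem LBx_quarter {a : ℝ} (ha : 1 / 4 < a) : LBx a := by
  -- the exponent
  set ε : ℝ := min (1 / 4) ((a - 1 / 4) / 2) with hε
  have hε0 : 0 < ε := lt_min (by norm_num) (by linarith)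
  have hε4 : ε ≤ 1 / 4 := min_le_left _ _
  have hεa : ε ≤ (a - 1 / 4) / 2 := min_le_right _ _
  have hexp : (1 / 2 + ε) * (1 / 2 + ε) ≤ a := by nlinarith
  obtain ⟨C, hC1, hPV⟩ := sum_bound_PV
  set E : ℝ := (C / ε) ^ (1 / 2 + ε) with hE
  refine ⟨E / ε, 1, fun d hd h1 t => ?_⟩
  have hd1 : (1 : ℝ) ≤ d := by exact_mod_cast h1.le
  have hd0 : (0 : ℝ) < d := by linarith
  have hs : (0 : ℝ) < (1 / 2 + I * (t : ℂ)).re := by simp
  have hre : (1 / 2 + I * (t : ℂ)).re = 1 / 2 := by simp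
  rw [Lx_int hd h1 hs, norm_mul]
  -- the partial sums
  have hlog : √(d : ℝ) * Real.log d ≤ (d : ℝ) ^ (1 / 2 + ε) / ε := by
    have h2 : Real.log d ≤ (d : ℝ) ^ ε / ε := Real.log_le_rpow_div hd0.le hε0
    rw [Real.sqrt_eq_rpow, Real.rpow_add hd0, mul_div_assoc]
    exact mul_le_mul_of_nonneg_left h2 (by positivity)
  set Y : ℝ := C / ε * (d : ℝ) ^ (1 / 2 + ε) with hY
  have hY0 : 0 < Y := by rw [hY]; positivity
  have hSY : ∀ t : ℝ, ‖Sd d t‖ ≤ Y := by
    intro t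
    refine (hPV d hd h1 t).trans ?_
    rw [hY, mul_assoc]
    calc C * (√(d : ℝ) * Real.log d) ≤ C * ((d : ℝ) ^ (1 / 2 + ε) / ε) := mul_le_mul_of_nonneg_left hlog (by linarith)
      _ = _ := by ring
  have hS2 : ∀ u : ℝ, 1 < u → ‖Sd d u‖ ≤ Y ^ (1 / 2 + ε) * u ^ (1 / 2 - ε) := by
    intro u hu
    have hn : 0 ≤ ‖Sd d u‖ := norm_nonneg _
    have h2 : ‖Sd d u‖ = ‖Sd d u‖ ^ (1 / 2 + ε) * ‖Sd d u‖ ^ (1 / 2 - ε) := by
      rw [← Real.rpow_add' hn (by norm_num)]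
      norm_num
    rw [h2]
    refine mul_le_mul (Real.rpow_le_rpow hn (hSY u) (by linarith)) (Real.rpow_le_rpow hn (Sd_le d hu) (by linarith))
      (by positivity) (by positivity)
  have hint : ‖∫ u, fI d (fun _ => 1 / 2 + I * (t : ℂ)) u‖ ≤ Y ^ (1 / 2 + ε) * (1 / ε) := by
    have hb : ∀ u : ℝ, ‖fI d (fun _ => 1 / 2 + I * (t : ℂ)) u‖ ≤
        (Ioi (1 : ℝ)).indicator (fun u => Y ^ (1 / 2 + ε) * u ^ (-ε - 1)) u := by
      intro u
      unfold fI
      by_cases hu : u ∈ Ioi (1 : ℝ)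
      · rw [indicator_of_mem hu, indicator_of_mem hu, norm_mul]
        have hu1 : (1 : ℝ) < u := hu
        have hu0 : (0 : ℝ) < u := by linarith
        rw [Complex.norm_cpow_eq_rpow_re_of_pos hu0]
        have e1 : (-(1 / 2 + I * (t : ℂ) + 1)).re = -(3 / 2) := by
          simp
          norm_num
        rw [e1]
        have e2 : u ^ (-ε - 1) = u ^ (1 / 2 - ε) * u ^ (-(3 / 2) : ℝ) := by
          rw [← Real.rpow_add hu0]
          congr 1
          ring
        rw [e2, ← mul_assoc]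
        exact mul_le_mul_of_nonneg_right (hS2 u hu1) (by positivity)
      · rw [indicator_of_notMem hu, indicator_of_notMem hu, norm_zero]
    have hI : Integrable ((Ioi (1 : ℝ)).indicator (fun u => Y ^ (1 / 2 + ε) * u ^ (-ε - 1))) := by
      rw [integrable_indicator_iff measurableSet_Ioi]
      exact (integrableOn_Ioi_rpow_of_lt (by linarith) one_pos).const_mul _
    refine (norm_integral_le_of_norm_le hI (Eventually.of_forall hb)).trans (le_of_eq ?_)
    rw [integral_indicator measurableSet_Ioi, integral_const_mul, integral_Ioi_rpow_of_lt (by linarith) one_pos]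
    rw [Real.one_rpow]
    congr 1
    have : -ε - 1 + 1 = -ε := by ring
    rw [this, neg_div_neg_eq]
  have hYle : Y ^ (1 / 2 + ε) ≤ E * (d : ℝ) ^ a := by
    rw [hY, Real.mul_rpow (by positivity) (by positivity), ← Real.rpow_mul hd0.le, hE]
    exact mul_le_mul_of_nonneg_left (Real.rpow_le_rpow_of_exponent_le hd1 hexp) (by positivity)
  have hnorm : ‖(1 / 2 + I * (t : ℂ))‖ ≤ 1 + |t| := by
    refine (norm_add_le _ _).trans ?_
    rw [norm_mul, Complex.norm_I, Complex.norm_real, one_mul, Real.norm_eq_abs]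
    norm_num
  have hE0 : 0 ≤ E := by positivity
  calc ‖(1 / 2 + I * (t : ℂ))‖ * ‖∫ u, fI d (fun _ => 1 / 2 + I * (t : ℂ)) u‖
      ≤ (1 + |t|) * (E * (d : ℝ) ^ a * (1 / ε)) := by
        refine mul_le_mul hnorm (hint.trans ?_) (norm_nonneg _) (by positivity)
        exact mul_le_mul_of_nonneg_right hYle (by positivity)
    _ = E / ε * (d : ℝ) ^ a * (1 + |t|) ^ 1 := by
        rw [pow_one]
        ring

theorem th_le_quarter : th ≤ 1 / 4 :=
  le_of_forall_gt_imp_ge_of_dense fun _ ha => th_le (by linarith) (LBx_quarter ha)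

end Pool.Agent.L5helper5.LE
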